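import Pool.Agent.H32.TN.Dio

/-!
# [H24 RL Kron] THEOREM R (MP_e49dc9_ag): Kronecker's theorem (continuous time)

PROOF. `δ = ε / (r + 1)`. As in `exists_fam` (H32/TN/Dio): linearly independent integral points `n_b`, `b < m ≤ r`, with `|n_b - x_b p| ≤ δ`, which
span `ℚ ^ r`.  So `w = ∑ c_b (n_b - x_b p) + s p` (real `c_b`, `s`).  `w' = ∑ ⌊c_b⌋ (n_b - x_b p) + s p` is within `m δ` of `w`; add the point of `dio`.
-/

set_option autoImplicit false

namespace Pool.Agent.H24.RL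

open Pool.Agent.H32.TN

variable {r : ℕ} {p : Fin r → ℝ}

/-- `exists_fam` with `m ≤ r` -/
theorem exists_fam' (hlin : ∀ z : Fin r → ℤ, ∑ i, (z i : ℝ) * p i = 0 → z = 0) {δ : ℝ} (hδ : 0 < δ) (x₀ : ℝ) :
    ∃ (m : ℕ) (n : Fin m → Fin r → ℤ) (q : Fin r → Fin m → ℝ), m ≤ r ∧ (∀ b, Nr p δ x₀ (n b)) ∧
      ∀ j i, ∑ b, q j b * n b i = if i = j then 1 else 0 := by
  classical
  have h1 := span_top hlin hδ x₀
  obtain ⟨b, hb1, hb2, hb3⟩ := exists_linearIndependent ℚ
    {v : Fin r → ℚ | ∃ n : Fin r → ℤ, Nr p δ x₀ n ∧ v = fun i => (n i : ℚ)}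
  rw [h1] at hb2
  have hfin : Finite b := hb3.setFinite
  have := Fintype.ofFinite b
  have hcard : Fintype.card b ≤ r := by
    have h2 := hb3.fintype_card_le_finrank
    rwa [Module.finrank_fin_fun] at h2
  obtain ⟨e⟩ : Nonempty (Fin (Fintype.card b) ≃ b) := ⟨(Fintype.equivFin b).symm⟩
  choose n hn1 hn2 using fun v : b => hb1 v.2
  have hsp : ∀ v : Fin r → ℚ, ∃ c : b → ℚ, ∑ i, c i • (i : Fin r → ℚ) = v := by
    intro v
    have h2 : v ∈ Submodule.span ℚ (Set.range (fun i : b => (i : Fin r → ℚ))) := by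
      rw [Subtype.range_coe, hb2]
      exact Submodule.mem_top
    exact (Submodule.mem_span_range_iff_exists_fun ℚ).1 h2
  choose c hc using hsp
  refine ⟨Fintype.card b, fun t => n (e t), fun j t => (c (Pi.single j 1) (e t) : ℝ), hcard, fun t => hn1 _, fun j i => ?_⟩
  have h2 := congrFun (hc (Pi.single j 1)) i
  rw [Finset.sum_apply] at h2
  have h3 : ∑ t, c (Pi.single j 1) (e t) * (n (e t) i : ℚ) = if i = j then 1 else 0 := by
    have h4 : ∑ t, c (Pi.single j 1) (e t) * (n (e t) i : ℚ) = ∑ s : b, c (Pi.single j 1) s * (n s i : ℚ) :=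
      Equiv.sum_comp e fun s : b => c (Pi.single j 1) s * (n s i : ℚ)
    rw [h4]
    have h5 : ∀ s : b, c (Pi.single j 1) s * (n s i : ℚ) = (c (Pi.single j 1) s • (s : Fin r → ℚ)) i := by
      intro s
      rw [Pi.smul_apply, smul_eq_mul]
      have h6 := congrFun (hn2 s) i
      rw [h6]
    rw [Finset.sum_congr rfl fun s _ => h5 s, h2, Pi.single_apply]
  have h7 : ((∑ t, c (Pi.single j 1) (e t) * (n (e t) i : ℚ) : ℚ) : ℝ) = if i = j then 1 else 0 := by
    rw [h3]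
    split_ifs <;> simp
  rw [← h7]
  push_cast
  rfl

theorem kron (hlin : ∀ z : Fin r → ℤ, ∑ i, (z i : ℝ) * p i = 0 → z = 0) (w : Fin r → ℝ) {ε : ℝ} (hε : 0 < ε) (M : ℝ) :
    ∃ (y : ℝ) (n : Fin r → ℤ), M ≤ y ∧ ∀ i, |(n i : ℝ) - y * p i - w i| ≤ ε := by
  classical
  obtain ⟨δ, hδd⟩ : ∃ δ, δ = ε / (r + 1) := ⟨_, rfl⟩
  have hδ : 0 < δ := by rw [hδd]; positivity
  obtain ⟨m, n, q, hm, hn, hq⟩ := exists_fam' hlin hδ 0
  choose x _ hnx using hn
  -- the coefficients of `w`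
  obtain ⟨c, hc⟩ : ∃ c : Fin m → ℝ, c = fun b => ∑ j, w j * q j b := ⟨_, rfl⟩
  have hw : ∀ i, w i = ∑ b, c b * (n b i : ℝ) := by
    intro i
    rw [hc]
    simp only [Finset.sum_mul]
    rw [Finset.sum_comm]
    have h1 : ∀ j, ∑ b, w j * q j b * (n b i : ℝ) = if i = j then w j else 0 := by
      intro j
      have h3 : ∑ b, w j * q j b * (n b i : ℝ) = w j * ∑ b, q j b * (n b i : ℝ) := by
        rw [Finset.mul_sum]
        exact Finset.sum_congr rfl fun b _ => by ring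
      rw [h3, hq j i]
      split_ifs <;> ring
    rw [Finset.sum_congr rfl fun j _ => h1 j, Finset.sum_ite_eq]
    simp
  -- `w = ∑ c_b (n_b - x_b p) + s p`
  obtain ⟨s, hs⟩ : ∃ s, s = ∑ b, c b * x b := ⟨_, rfl⟩
  obtain ⟨s', hs'⟩ : ∃ s', s' = ∑ b, (⌊c b⌋ : ℝ) * x b := ⟨_, rfl⟩
  obtain ⟨y, n₀, hy, hn₀⟩ := dio p hδ (max 0 (M + |s - s'|))
  have hyM : M + |s - s'| ≤ y := (le_max_right _ _).trans hy
  refine ⟨y - (s - s'), fun i => n₀ i + ∑ b, ⌊c b⌋ * n b i, ?_, fun i => ?_⟩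
  · have := le_abs_self (s - s')
    linarith
  · have e : ((n₀ i + ∑ b, ⌊c b⌋ * n b i : ℤ) : ℝ) - (y - (s - s')) * p i - w i =
        ((n₀ i : ℝ) - y * p i) + ∑ b, (-Int.fract (c b)) * ((n b i : ℝ) - x b * p i) := by
      push_cast
      have h1 : ∑ b, (-Int.fract (c b)) * ((n b i : ℝ) - x b * p i) =
          ∑ b, (⌊c b⌋ : ℝ) * (n b i : ℝ) - ∑ b, c b * (n b i : ℝ) + (s - s') * p i := by
        rw [hs, hs', ← Finset.sum_sub_distrib, ← Finset.sum_sub_distrib, Finset.sum_mul, ← Finset.sum_add_distrib]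
        refine Finset.sum_congr rfl fun b _ => ?_
        have h2 := Int.self_sub_floor (c b)
        rw [← h2]
        ring
      rw [h1, hw i]
      ring
    rw [e]
    have h2 : |∑ b, (-Int.fract (c b)) * ((n b i : ℝ) - x b * p i)| ≤ r * δ := by
      refine (Finset.abs_sum_le_sum_abs _ _).trans ?_
      calc ∑ b, |(-Int.fract (c b)) * ((n b i : ℝ) - x b * p i)| ≤ ∑ _b : Fin m, δ := by
            refine Finset.sum_le_sum fun b _ => ?_
            rw [abs_mul, abs_neg, abs_of_nonneg (Int.fract_nonneg _)]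
            calc Int.fract (c b) * |(n b i : ℝ) - x b * p i| ≤ 1 * δ :=
                  mul_le_mul (Int.fract_lt_one _).le (hnx b i) (abs_nonneg _) zero_le_one
              _ = δ := one_mul _
        _ = m * δ := by rw [Finset.sum_const, Finset.card_univ, Fintype.card_fin, nsmul_eq_mul]
        _ ≤ r * δ := mul_le_mul_of_nonneg_right (by exact_mod_cast hm) hδ.le
    have h3 : δ + r * δ = ε := by
      rw [hδd]
      field_simp
      ring
    calc _ ≤ |(n₀ i : ℝ) - y * p i| + |∑ b, (-Int.fract (c b)) * ((n b i : ℝ) - x b * p i)| := abs_add_le _ _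
      _ ≤ δ + r * δ := add_le_add (hn₀ i) h2
      _ = ε := h3

end Pool.Agent.H24.RL
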