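import Pool.Agent.H24.ZL.LowZ
import Pool.Agent.H36.RZ.Hg

/-!
# [H24 RL Con2] THEOREM R (MP_e49dc9_ag), Part 2 (A): numerical connectedness of `H ^ x * W`, `W` near `y p`, `p . p = 0`

`lc_abs`: the estimate in a Lorentzian form.
`con_2`: `Con T H Q (H ^ x * W)`.
-/

set_option autoImplicit false

namespace Pool.Agent.H24.RL

open Pool.Agent.H54.RV Pool.Agent.H83.TU Pool.Agent.H83.TK Pool.Agent.H24.TK Pool.Agent.H41.TK Pool.Agent.H24.VP Pool.Agent.H24.ZL
open Pool.Agent.H36.RZ (bl bl_apply bl_symm)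

section abs

variable {V : Type} [AddCommGroup V] [Module ℝ V] {b : V →ₗ[ℝ] V →ₗ[ℝ] ℝ} {p u H E : V}

/-- `B = y p + u`: `b(B,E) ≤ 0`, `b(B,E) ≤ b(E,E)`, `b(p,E) ≥ 0` imply `2 b(H,E) < b(H,u)` -/
theorem lc_abs (hs : ∀ x y, b x y = b y x) (hh : ∀ x y, 0 < b x x → b x x * b y y ≤ b x y ^ 2) (hpp : b p p = 0)
    (hpH : 0 < b p H) (hHH : 0 < b H H) (ht : 0 < b p u) (hu : 0 < b u u) {y : ℝ} (hy : 0 < y) (he : 0 ≤ b p E)
    (h1 : y * b p E + b u E ≤ 0) (h2 : y * b p E + b u E ≤ b E E) : 2 * b H E < b H u := by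
  obtain ⟨t, htd⟩ : ∃ t, t = b p u := ⟨_, rfl⟩
  obtain ⟨s, hsd⟩ : ∃ s, s = b u u := ⟨_, rfl⟩
  obtain ⟨e, hed⟩ : ∃ e, e = b p E := ⟨_, rfl⟩
  obtain ⟨x, hxd⟩ : ∃ x, x = b u E := ⟨_, rfl⟩
  obtain ⟨q, hqd⟩ : ∃ q, q = b E E := ⟨_, rfl⟩
  have f1 : b u p = t := by rw [hs, htd]
  have f2 : b E p = e := by rw [hs, hed]
  have f3 : b E u = x := by rw [hs, hxd]
  rw [← htd] at ht
  rw [← hsd] at hu
  rw [← hed] at he h1 h2
  rw [← hxd] at h1 h2
  rw [← hqd] at h2
  -- (i)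
  have h3 : t ^ 2 * q - 2 * e * x * t + e ^ 2 * s ≤ 0 := by
    obtain ⟨z, hz⟩ : ∃ z, z = t ^ 2 • E + (e * s - x * t) • p - (e * t) • u := ⟨_, rfl⟩
    have g1 : b u z = 0 := by
      rw [hz]
      simp only [map_add, map_sub, map_smul, smul_eq_mul]
      rw [f1, ← hsd, ← hxd]
      ring
    have g2 : b z z = t ^ 2 * (t ^ 2 * q - 2 * e * x * t + e ^ 2 * s) := by
      rw [hz]
      simp only [map_add, map_sub, map_smul, smul_eq_mul, LinearMap.add_apply, LinearMap.sub_apply,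
        LinearMap.smul_apply]
      rw [f1, f2, f3, hpp, ← hsd, ← hxd, ← htd, ← hed, ← hqd]
      ring
    have g3 := hh u z (by rw [← hsd]; exact hu)
    rw [g1, g2, ← hsd] at g3
    have g4 : 0 < s * t ^ 2 := by positivity
    have g5 : (s * t ^ 2) * (t ^ 2 * q - 2 * e * x * t + e ^ 2 * s) ≤ 0 := by
      calc _ = s * (t ^ 2 * (t ^ 2 * q - 2 * e * x * t + e ^ 2 * s)) := by ring
        _ ≤ 0 ^ 2 := g3
        _ = 0 := by norm_num
    by_contra hcon
    push Not at hcon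
    have := mul_pos g4 hcon
    linarith
  -- (ii)
  have h4 : 2 * e < t := by
    have g1 : t * (t * (y * e) - (-x) * (t - 2 * e)) ≤ 0 := by
      have g2 : 0 ≤ e ^ 2 * s := by positivity
      have g3 := mul_le_mul_of_nonneg_left h2 (show (0 : ℝ) ≤ t ^ 2 by positivity)
      nlinarith
    have g2 : t * (y * e) ≤ (-x) * (t - 2 * e) := by
      by_contra hcon
      push Not at hcon
      have := mul_pos ht (sub_pos.2 hcon)
      linarith
    by_contra hcon
    push Not at hcon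
    have g3 : 0 ≤ -x := by
      have := mul_nonneg hy.le he
      linarith
    have g4 : (-x) * (t - 2 * e) ≤ 0 := mul_nonpos_of_nonneg_of_nonpos g3 (by linarith)
    have g5 : 0 < e := by linarith
    have g6 : 0 < t * (y * e) := by positivity
    linarith
  -- (iii)
  obtain ⟨v, hv⟩ : ∃ v, v = (2 : ℝ) • E - u := ⟨_, rfl⟩
  have h5 : 0 < b v v := by
    have g1 : b v v = 4 * q - 4 * x + s := by
      rw [hv]
      simp only [map_sub, map_smul, smul_eq_mul, LinearMap.sub_apply, LinearMap.smul_apply]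
      rw [f3, ← hsd, ← hxd, ← hqd]
      ring
    rw [g1]
    have := mul_nonneg hy.le he
    linarith
  have h6 : b p v = 2 * e - t := by
    rw [hv]
    simp only [map_sub, map_smul, smul_eq_mul]
    rw [← hed, ← htd]
  have h7 : b H v = 2 * b H E - b H u := by
    rw [hv]
    simp only [map_sub, map_smul, smul_eq_mul]
  -- (iv)
  by_contra hcon
  push Not at hcon
  have h8 : 0 ≤ b H v := by rw [h7]; linarith
  obtain ⟨a, ha⟩ : ∃ a, a = b H v := ⟨_, rfl⟩
  obtain ⟨g, hg⟩ : ∃ g, g = a • p + (t - 2 * e) • H := ⟨_, rfl⟩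
  have h9 : b g v = 0 := by
    rw [hg]
    simp only [map_add, map_smul, smul_eq_mul, LinearMap.add_apply, LinearMap.smul_apply]
    rw [h6, ← ha]
    ring
  have h10 : 0 < b g g := by
    have g1 : b g g = 2 * a * (t - 2 * e) * b p H + (t - 2 * e) ^ 2 * b H H := by
      rw [hg]
      simp only [map_add, map_smul, smul_eq_mul, LinearMap.add_apply, LinearMap.smul_apply]
      rw [hpp, hs H p]
      ring
    rw [g1]
    rw [← ha] at h8
    have g2 : 0 < t - 2 * e := by linarith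
    have g3 : 0 ≤ 2 * a * (t - 2 * e) * b p H := by positivity
    have g4 : 0 < (t - 2 * e) ^ 2 * b H H := by positivity
    linarith
  have h11 := hh g v h10
  rw [h9] at h11
  have h12 := mul_pos h10 h5
  linarith

end abs

variable {k K : Type} [Field k] [Field K] [Algebra k K] {X : Mod k K}
  {T : Cart X → Cart X → Cart X → ℝ} {l : Cart X → ℝ} {c : ℝ} {H : Cart X} {k' L : Type} [Field k'] [Field L]
  [Algebra k' L] {S : Mod k' L} {ψ : Cart X →* Cart S} {r : ℕ} {G : Fin r → Cart X} {p : Fin r → ℝ}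

/-- the estimate for `u = x H + w + c₁ p` -/
theorem lc_u (hr : RR T l c) (hS : Sf H S ψ) (hi : ∀ A B C, ∃ z : ℤ, T A B C = z)
    (hβ : 0 < t1 T G p H H) (hpp : bf T H G p p = 0) {E : Cart X} (x : ℝ) (w : Fin r → ℝ) (c₁ : ℝ) {y : ℝ}
    (ht : 0 < x * t1 T G p H H + ∑ i, w i * t1 T G p (G i) H)
    (hu : 0 < x ^ 2 * T H H H + 2 * x * ∑ i, w i * T (G i) H H + ∑ i, w i * ∑ j, w j * T (G i) (G j) H +
      2 * c₁ * (x * t1 T G p H H + ∑ i, w i * t1 T G p (G i) H)) (hy : c₁ < y) (he : 0 ≤ t1 T G p E H)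
    (h1 : x * T E H H + y * t1 T G p E H + ∑ i, w i * T (G i) E H ≤ 0)
    (h2 : x * T E H H + y * t1 T G p E H + ∑ i, w i * T (G i) E H ≤ T E E H) :
    2 * T E H H < x * T H H H + ∑ i, w i * T (G i) H H + c₁ * t1 T G p H H := by
  have htr := hr.tri
  obtain ⟨F, hF⟩ : ∃ F : Fin r ⊕ Fin 2 → Cart X, F = Sum.elim G ![E, H] := ⟨_, rfl⟩
  obtain ⟨P, hP⟩ : ∃ P : Fin r ⊕ Fin 2 → ℝ, P = Sum.elim p ![0, 0] := ⟨_, rfl⟩
  obtain ⟨W, hW⟩ : ∃ W : Fin r ⊕ Fin 2 → ℝ, W = Sum.elim w ![0, 0] := ⟨_, rfl⟩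
  obtain ⟨E', hE'⟩ : ∃ E' : Fin r ⊕ Fin 2 → ℝ, E' = Sum.elim (fun _ => (0 : ℝ)) ![1, 0] := ⟨_, rfl⟩
  obtain ⟨H', hH'⟩ : ∃ H' : Fin r ⊕ Fin 2 → ℝ, H' = Sum.elim (fun _ => (0 : ℝ)) ![0, 1] := ⟨_, rfl⟩
  obtain ⟨B, hB⟩ : ∃ B : (Fin r ⊕ Fin 2 → ℝ) →ₗ[ℝ] (Fin r ⊕ Fin 2 → ℝ) →ₗ[ℝ] ℝ, B = bl T H F := ⟨_, rfl⟩
  have hs : ∀ x y, B x y = B y x := fun x y => by rw [hB]; exact bl_symm htr F x y
  have hh : ∀ x y, 0 < B x x → B x x * B y y ≤ B x y ^ 2 := fun x y h => by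
    rw [hB] at h ⊢
    exact hdg_real hr hS hi F x y h
  have a1 : B P P = 0 := by
    rw [hB, bl_apply, ← hpp, hF, hP]
    unfold bf
    simp [Fintype.sum_sum_type]
  have a2 : B P H' = t1 T G p H H := by
    rw [hB, bl_apply, hF, hP, hH']
    unfold bf t1
    simp [Fintype.sum_sum_type]
  have a3 : B H' H' = T H H H := by
    rw [hB, bl_apply, hF, hH']
    unfold bf
    simp [Fintype.sum_sum_type]
  have a4 : B P W = ∑ i, w i * t1 T G p (G i) H := by
    rw [hB, bl_apply, hF, hP, hW]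
    unfold bf t1
    simp [Fintype.sum_sum_type]
    rw [Finset.sum_comm]
    refine Finset.sum_congr rfl fun i _ => ?_
    rw [Finset.mul_sum]
    refine Finset.sum_congr rfl fun j _ => ?_
    ring
  have a5 : B W W = ∑ i, w i * ∑ j, w j * T (G i) (G j) H := by
    rw [hB, bl_apply, hF, hW]
    unfold bf
    simp [Fintype.sum_sum_type]
    refine Finset.sum_congr rfl fun i _ => ?_
    rw [Finset.mul_sum]
    refine Finset.sum_congr rfl fun j _ => ?_
    ring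
  have a6 : B W H' = ∑ i, w i * T (G i) H H := by
    rw [hB, bl_apply, hF, hW, hH']
    unfold bf
    simp [Fintype.sum_sum_type]
  have a7 : B W E' = ∑ i, w i * T (G i) E H := by
    rw [hB, bl_apply, hF, hW, hE']
    unfold bf
    simp [Fintype.sum_sum_type]
  have a8 : B H' E' = T E H H := by
    rw [hB, bl_apply, hF, hH', hE']
    unfold bf
    simp [Fintype.sum_sum_type]
    rw [htr.s12]
  have a9 : B P E' = t1 T G p E H := by
    rw [hB, bl_apply, hF, hP, hE']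
    unfold bf t1
    simp [Fintype.sum_sum_type]
  have a10 : B E' E' = T E E H := by
    rw [hB, bl_apply, hF, hE']
    unfold bf
    simp [Fintype.sum_sum_type]
  obtain ⟨u, hud⟩ : ∃ u, u = x • H' + W + c₁ • P := ⟨_, rfl⟩
  have b1 : B P u = x * t1 T G p H H + ∑ i, w i * t1 T G p (G i) H := by
    rw [hud]
    simp only [map_add, map_smul, smul_eq_mul]
    rw [a1, a2, a4]
    ring
  have b2 : B u u = x ^ 2 * T H H H + 2 * x * ∑ i, w i * T (G i) H H + ∑ i, w i * ∑ j, w j * T (G i) (G j) H +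
      2 * c₁ * (x * t1 T G p H H + ∑ i, w i * t1 T G p (G i) H) := by
    rw [hud]
    simp only [map_add, map_smul, smul_eq_mul, LinearMap.add_apply, LinearMap.smul_apply]
    rw [hs H' P, hs H' W, hs W P, a1, a2, a3, a4, a5, a6]
    ring
  have b3 : B u E' = x * T E H H + ∑ i, w i * T (G i) E H + c₁ * t1 T G p E H := by
    rw [hud]
    simp only [map_add, map_smul, smul_eq_mul, LinearMap.add_apply, LinearMap.smul_apply]
    rw [a7, a8, a9]
  have b4 : B H' u = x * T H H H + ∑ i, w i * T (G i) H H + c₁ * t1 T G p H H := by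
    rw [hud]
    simp only [map_add, map_smul, smul_eq_mul]
    rw [hs H' W, hs H' P, a2, a3, a6]
  have h3 := lc_abs (b := B) (p := P) (u := u) (H := H') (E := E') hs hh a1 (by rw [a2]; exact hβ)
    (by rw [a3]; exact (crv_num hr hS).1) (by rw [b1]; exact ht) (by rw [b2]; exact hu) (y := y - c₁)
    (sub_pos.2 hy) (by rw [a9]; exact he) (by rw [a9, b3]; linarith) (by rw [a9, a10, b3]; linarith)
  rw [a8, b4] at h3
  exact h3

end Pool.Agent.H24.RL
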