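import Mathlib
import Pool.Agent.H32.TN.Dio

/-!
# [H24 RL Alg] THEOREM R (MP_e49dc9_ag), Part 2 (E): the degenerate case

`p` linearly independent over `ℚ`, `t` an integral symmetric trilinear form, `b` an integral symmetric bilinear form on `ℤ ^ n`,
`T(p,.,.) = θ ⊗ θ / β` with `θ = b(p,.)` and `b(p,p) = 0`: then `θ = 0`.

PROOF. `e = θ / β`.  (1) `e_j e_k` is in the `ℚ`-span `E` of the `e_l`: by `mem_span_of_iInf_ker_le_ker` for the functionals `b(.,G_l)` and
`T(.,G_j,G_k)` on `ℚ ^ n`: if `b(z,G_l) = 0` for all `l` then `β e(z) = b(p,z) = 0`, so `∑ p_i T(G_i,z,G_k) = β e(z) e_k = 0`, so `T(G_i,z,G_k) = 0` for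
all `i`.  So `T(.,G_j,G_k) = ∑ m_l b(.,G_l)`, at `p`: `e_j e_k = ∑ m_l e_l`.
(2) `θ ≠ 0`: `1 ∈ E` (multiplication by some `e_j ≠ 0` is injective on the finite dimensional space `E`): `1 = e(z0)`, `z0 ∈ ℚ ^ n`.
`T(z0,G_j,G_k) = b(G_j,G_k)`: the sum over `j` with `p_j` is `β e(z0) e_k - β e_k = 0`.
(3) an orthogonal basis `f_a` of `b` over `ℚ`, `d_a = b(f_a,f_a)`; `p = ∑ c_a f_a`, `β e(f_a) = c_a d_a`, `0 = b(p,p) = β² ∑_(d_a ≠ 0) e(f_a)² / d_a`
`= β ∑_(d_a ≠ 0) T(p,f_a,f_a) / d_a`, so `∑_(d_a ≠ 0) T(G_i,f_a,f_a) / d_a = 0` for all `i`, so (with `z0`) the number of `a` with `d_a ≠ 0` is `0`.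
-/

set_option autoImplicit false

namespace Pool.Agent.H24.RL

variable {n : ℕ} {p : Fin n → ℝ}

theorem lin_q (hlin : ∀ z : Fin n → ℤ, ∑ i, p i * z i = 0 → z = 0) (q : Fin n → ℚ) (hq : ∑ i, p i * (q i : ℝ) = 0) :
    q = 0 := by
  obtain ⟨D, z, hD, hz⟩ := Pool.Agent.H32.TN.clear_den q
  have hz' : ∀ i, (z i : ℝ) = D * q i := fun i => by exact_mod_cast congrArg (fun t : ℚ => (t : ℝ)) (hz i)
  have h1 : z = 0 := by
    refine hlin z ?_
    have e : ∑ i, p i * (z i : ℝ) = D * ∑ i, p i * (q i : ℝ) := by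
      rw [Finset.mul_sum]
      exact Finset.sum_congr rfl fun i _ => by rw [hz']; ring
    rw [e, hq, mul_zero]
  funext i
  have h2 := hz i
  rw [h1, Pi.zero_apply, Int.cast_zero] at h2
  have hD' : (D : ℚ) ≠ 0 := by exact_mod_cast hD.ne'
  rcases mul_eq_zero.1 h2.symm with h3 | h3
  · exact absurd h3 hD'
  · exact h3

theorem alg0 (hlin : ∀ z : Fin n → ℤ, ∑ i, p i * z i = 0 → z = 0) {t : Fin n → Fin n → Fin n → ℤ} {b : Fin n → Fin n → ℤ}
    (ht1 : ∀ i j k, t i j k = t j i k) (ht2 : ∀ i j k, t i j k = t i k j) (hb : ∀ i j, b i j = b j i)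
    {θ : Fin n → ℝ} {β : ℝ} (hβ : β ≠ 0) (h1 : ∀ j, θ j = ∑ i, p i * b i j)
    (h2 : ∀ j k, β * ∑ i, p i * t i j k = θ j * θ k) (h3 : ∑ j, p j * θ j = 0) : ∀ j, θ j = 0 := by
  classical
  by_contra hcon
  push Not at hcon
  obtain ⟨j₀, hj₀⟩ := hcon
  obtain ⟨e, he⟩ : ∃ e : Fin n → ℝ, ∀ j, θ j = β * e j := ⟨fun j => θ j / β, fun j => by field_simp⟩
  have h1' : ∀ j, ∑ i, p i * (b i j : ℝ) = β * e j := fun j => by rw [← he, h1]
  have h2' : ∀ j k, ∑ i, p i * (t i j k : ℝ) = β * (e j * e k) := by
    intro j k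
    have g := h2 j k
    rw [he, he] at g
    have g2 : β * ∑ i, p i * (t i j k : ℝ) = β * (β * (e j * e k)) := by rw [g]; ring
    exact mul_left_cancel₀ hβ g2
  have h3' : ∑ j, p j * e j = 0 := by
    have g : β * ∑ j, p j * e j = 0 := by
      rw [← h3, Finset.mul_sum]
      exact Finset.sum_congr rfl fun j _ => by rw [he]; ring
    exact (mul_eq_zero.1 g).resolve_left hβ
  obtain ⟨eq, heq⟩ : ∃ eq : (Fin n → ℚ) →ₗ[ℚ] ℝ, ∀ z, eq z = ∑ j, (z j : ℝ) * e j := by
    refine ⟨∑ j, (LinearMap.toSpanSingleton ℚ ℝ (e j)).comp (LinearMap.proj j), fun z => ?_⟩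
    simp [LinearMap.sum_apply, Algebra.smul_def]
  -- (1)
  have s1 : ∀ j k, ∃ m : Fin n → ℚ, ∀ i, (t i j k : ℚ) = ∑ l, m l * (b i l : ℚ) := by
    intro j k
    obtain ⟨L, hL⟩ : ∃ L : Fin n → ((Fin n → ℚ) →ₗ[ℚ] ℚ), ∀ l z, L l z = ∑ i, (b i l : ℚ) * z i :=
      ⟨fun l => ∑ i, (b i l : ℚ) • LinearMap.proj i, fun l z => by simp [LinearMap.sum_apply]⟩
    obtain ⟨K, hK⟩ : ∃ K : (Fin n → ℚ) →ₗ[ℚ] ℚ, ∀ z, K z = ∑ i, (t i j k : ℚ) * z i :=
      ⟨∑ i, (t i j k : ℚ) • LinearMap.proj i, fun z => by simp [LinearMap.sum_apply]⟩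
    have g1 : K ∈ Submodule.span ℚ (Set.range L) := by
      refine mem_span_of_iInf_ker_le_ker ?_
      intro z hz
      rw [Submodule.mem_iInf] at hz
      have g2 : ∀ l, ∑ i, (b i l : ℚ) * z i = 0 := fun l => by
        rw [← hL]
        exact hz l
      have g3 : eq z = 0 := by
        have g4 : β * eq z = 0 := by
          rw [heq]
          calc β * ∑ j, (z j : ℝ) * e j = ∑ j, (z j : ℝ) * (∑ i, p i * (b i j : ℝ)) := by
                rw [Finset.mul_sum]
                exact Finset.sum_congr rfl fun j _ => by rw [h1']; ring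
            _ = ∑ i, p i * ((∑ j, (b j i : ℚ) * z j : ℚ) : ℝ) := by
                simp only [Finset.mul_sum]
                rw [Finset.sum_comm]
                refine Finset.sum_congr rfl fun i _ => ?_
                push_cast
                rw [Finset.mul_sum]
                refine Finset.sum_congr rfl fun j _ => ?_
                rw [hb i j]
                ring
            _ = 0 := by
                refine Finset.sum_eq_zero fun i _ => ?_
                rw [g2, Rat.cast_zero, mul_zero]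
        exact (mul_eq_zero.1 g4).resolve_left hβ
      have g5 : (fun i => ∑ j', (t i j' k : ℚ) * z j') = 0 := by
        refine lin_q hlin _ ?_
        calc ∑ i, p i * ((∑ j', (t i j' k : ℚ) * z j' : ℚ) : ℝ) = ∑ j', (z j' : ℝ) * ∑ i, p i * (t i j' k : ℝ) := by
              simp only [Finset.mul_sum]
              rw [Finset.sum_comm]
              refine Finset.sum_congr rfl fun i _ => ?_
              push_cast
              rw [Finset.mul_sum]
              refine Finset.sum_congr rfl fun j _ => ?_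
              ring
          _ = β * e k * eq z := by
              rw [heq, Finset.mul_sum]
              exact Finset.sum_congr rfl fun j _ => by rw [h2']; ring
          _ = 0 := by rw [g3, mul_zero]
      have g6 := congrFun g5 j
      rw [LinearMap.mem_ker, hK]
      simp only [Pi.zero_apply] at g6
      rw [← g6]
      exact Finset.sum_congr rfl fun i _ => by rw [ht1 i j k]
    obtain ⟨m, hm⟩ := (Submodule.mem_span_range_iff_exists_fun ℚ).1 g1
    refine ⟨m, fun i => ?_⟩
    have g2 := congrArg (fun f : (Fin n → ℚ) →ₗ[ℚ] ℚ => f (Pi.single i 1)) hm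
    simp only [LinearMap.sum_apply, LinearMap.smul_apply, smul_eq_mul, hL, hK] at g2
    have g3 : ∀ f : Fin n → ℚ, ∑ i', f i' * (Pi.single i (1 : ℚ) : Fin n → ℚ) i' = f i := by
      intro f
      rw [Finset.sum_eq_single i]
      · simp
      · intro i' _ hi'
        rw [Pi.single_eq_of_ne hi', mul_zero]
      · intro h
        exact absurd (Finset.mem_univ _) h
    rw [g3 fun i' => (t i' j k : ℚ)] at g2
    rw [← g2]
    refine Finset.sum_congr rfl fun l _ => ?_
    rw [g3 fun i' => (b i' l : ℚ)]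
  have s2 : ∀ j k, ∃ m : Fin n → ℚ, e j * e k = eq m := by
    intro j k
    obtain ⟨m, hm⟩ := s1 j k
    refine ⟨m, mul_left_cancel₀ hβ ?_⟩
    rw [← h2', heq, Finset.mul_sum]
    calc ∑ i, p i * (t i j k : ℝ) = ∑ i, p i * ((∑ l, m l * (b i l : ℚ) : ℚ) : ℝ) := by
          refine Finset.sum_congr rfl fun i _ => ?_
          rw [← hm i]
          push_cast
          rfl
      _ = ∑ l, (m l : ℝ) * ∑ i, p i * (b i l : ℝ) := by
          simp only [Finset.mul_sum]
          rw [Finset.sum_comm]
          refine Finset.sum_congr rfl fun i _ => ?_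
          push_cast
          rw [Finset.mul_sum]
          refine Finset.sum_congr rfl fun j _ => ?_
          ring
      _ = ∑ l, β * ((m l : ℝ) * e l) := Finset.sum_congr rfl fun l _ => by rw [h1']; ring
  -- (2)
  have hej : e j₀ ≠ 0 := by
    intro h
    rw [he, h, mul_zero] at hj₀
    exact hj₀ rfl
  obtain ⟨z0, hz0⟩ : ∃ z0 : Fin n → ℚ, eq z0 = 1 := by
    have g1 : ∀ x ∈ LinearMap.range eq, LinearMap.mulLeft ℚ (e j₀) x ∈ LinearMap.range eq := by
      rintro _ ⟨z, rfl⟩
      choose m hm using s2 j₀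
      refine ⟨∑ k, z k • m k, ?_⟩
      rw [map_sum, LinearMap.mulLeft_apply, heq z, Finset.mul_sum]
      refine Finset.sum_congr rfl fun k _ => ?_
      rw [map_smul, ← hm k, Algebra.smul_def]
      simp only [eq_ratCast]
      ring
    obtain ⟨f, hf⟩ : ∃ f, f = (LinearMap.mulLeft ℚ (e j₀)).restrict g1 := ⟨_, rfl⟩
    have hf' : ∀ x, ((f x : LinearMap.range eq) : ℝ) = e j₀ * x := fun x => by
      rw [hf, LinearMap.coe_restrict_apply, LinearMap.mulLeft_apply]
    have hinj : Function.Injective f := by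
      intro x y hxy
      have g2 := congrArg (fun x : LinearMap.range eq => (x : ℝ)) hxy
      simp only [hf'] at g2
      exact Subtype.ext (mul_left_cancel₀ hej g2)
    have hsur := (LinearMap.injective_iff_surjective (f := f)).1 hinj
    have hmem : e j₀ ∈ LinearMap.range eq := by
      refine ⟨Pi.single j₀ 1, ?_⟩
      rw [heq, Finset.sum_eq_single j₀]
      · simp
      · intro i _ hi
        rw [Pi.single_eq_of_ne hi]
        simp
      · intro h
        exact absurd (Finset.mem_univ _) h
    obtain ⟨x, hx⟩ := hsur ⟨e j₀, hmem⟩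
    have g2 := congrArg (fun x : LinearMap.range eq => (x : ℝ)) hx
    simp only [hf'] at g2
    obtain ⟨z, hz⟩ := x.2
    refine ⟨z, ?_⟩
    rw [hz]
    have g3 : e j₀ * (x : ℝ) = e j₀ * 1 := by rw [mul_one]; exact g2
    exact mul_left_cancel₀ hej g3
  have s3 : ∀ j k, ∑ i, z0 i * (t i j k : ℚ) = b j k := by
    intro j k
    have g1 : (fun j => ∑ i, z0 i * (t i j k : ℚ) - b j k) = 0 := by
      refine lin_q hlin _ ?_
      calc ∑ j, p j * ((∑ i, z0 i * (t i j k : ℚ) - b j k : ℚ) : ℝ) =
            ∑ i, (z0 i : ℝ) * (∑ j, p j * (t j i k : ℝ)) - ∑ j, p j * (b j k : ℝ) := by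
            simp only [Finset.mul_sum]
            rw [Finset.sum_comm, ← Finset.sum_sub_distrib]
            refine Finset.sum_congr rfl fun j _ => ?_
            push_cast
            rw [mul_sub, Finset.mul_sum]
            congr 1
            refine Finset.sum_congr rfl fun i _ => ?_
            rw [ht1 i j k]
            ring
        _ = β * e k * eq z0 - β * e k := by
            rw [h1', heq, Finset.mul_sum]
            congr 1
            exact Finset.sum_congr rfl fun i _ => by rw [h2']; ring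
        _ = 0 := by rw [hz0]; ring
    have g2 := congrFun g1 j
    simp only [Pi.zero_apply] at g2
    linarith
  -- (3)
  obtain ⟨B, hB⟩ : ∃ B : LinearMap.BilinForm ℚ (Fin n → ℚ), ∀ x y, B x y = ∑ i, ∑ j, x i * y j * (b i j : ℚ) := by
    refine ⟨Matrix.toBilin' (Matrix.of fun i j => (b i j : ℚ)), fun x y => ?_⟩
    rw [Matrix.toBilin'_apply]
    refine Finset.sum_congr rfl fun i _ => Finset.sum_congr rfl fun j _ => ?_
    rw [Matrix.of_apply]
    ring
  have hBs : LinearMap.IsSymm B := ⟨fun x y => by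
    rw [RingHom.id_apply, hB, hB, Finset.sum_comm]
    refine Finset.sum_congr rfl fun i _ => Finset.sum_congr rfl fun j _ => ?_
    rw [hb]
    ring⟩
  obtain ⟨f, hf⟩ : ∃ v : Module.Basis (Fin (Module.finrank ℚ (Fin n → ℚ))) ℚ (Fin n → ℚ), LinearMap.IsOrthoᵢ B v :=
    LinearMap.BilinForm.exists_orthogonal_basis (K := ℚ) (V := Fin n → ℚ) (B := B) hBs
  obtain ⟨c, hc⟩ : ∃ c : Fin (Module.finrank ℚ (Fin n → ℚ)) → ℝ, ∀ a, c a = ∑ i, p i * (f.repr (Pi.single i 1) a : ℝ) :=
    ⟨_, fun _ => rfl⟩
  have hpc : ∀ i, p i = ∑ a, c a * (f a i : ℝ) := by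
    intro i
    have g1 : ∀ i', ∑ a, (f.repr (Pi.single i' 1) a : ℚ) * f a i = if i' = i then 1 else 0 := by
      intro i'
      have g2 := congrFun (f.sum_repr (Pi.single i' 1)) i
      rw [Finset.sum_apply] at g2
      simp only [Pi.smul_apply, smul_eq_mul] at g2
      rw [g2, Pi.single_apply]
      by_cases h : i = i'
      · rw [if_pos h, if_pos h.symm]
      · rw [if_neg h, if_neg fun h' => h h'.symm]
    calc p i = ∑ i', p i' * (if i' = i then 1 else 0) := by simp
      _ = ∑ i', p i' * ((∑ a, (f.repr (Pi.single i' 1) a : ℚ) * f a i : ℚ) : ℝ) := by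
          refine Finset.sum_congr rfl fun i' _ => ?_
          rw [g1]
          split_ifs <;> simp
      _ = _ := by
          simp only [hc, Finset.sum_mul]
          rw [Finset.sum_comm]
          refine Finset.sum_congr rfl fun i' _ => ?_
          push_cast
          rw [Finset.mul_sum]
          refine Finset.sum_congr rfl fun a _ => ?_
          ring
  -- `b(p,z)`
  have hpB : ∀ z : Fin n → ℚ, β * eq z = ∑ a, c a * (B (f a) z : ℝ) := by
    intro z
    calc β * eq z = ∑ j, (z j : ℝ) * ∑ i, p i * (b i j : ℝ) := by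
          rw [heq, Finset.mul_sum]
          exact Finset.sum_congr rfl fun j _ => by rw [h1']; ring
      _ = ∑ i, p i * ∑ j, (z j : ℝ) * (b i j : ℝ) := by
          simp only [Finset.mul_sum]
          rw [Finset.sum_comm]
          refine Finset.sum_congr rfl fun i _ => Finset.sum_congr rfl fun j _ => ?_
          ring
      _ = ∑ i, (∑ a, c a * (f a i : ℝ)) * ∑ j, (z j : ℝ) * (b i j : ℝ) :=
          Finset.sum_congr rfl fun i _ => by rw [← hpc i]
      _ = _ := by
          simp only [Finset.sum_mul]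
          rw [Finset.sum_comm]
          refine Finset.sum_congr rfl fun a _ => ?_
          rw [hB]
          push_cast
          rw [Finset.mul_sum]
          refine Finset.sum_congr rfl fun i _ => ?_
          rw [Finset.mul_sum, Finset.mul_sum]
          refine Finset.sum_congr rfl fun j _ => ?_
          ring
  have hbf : ∀ a, β * eq (f a) = c a * (B (f a) (f a) : ℝ) := by
    intro a
    rw [hpB, Finset.sum_eq_single a]
    · intro a' _ ha'
      have g1 : B (f a') (f a) = 0 := hf ha'
      rw [g1]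
      simp
    · intro h
      exact absurd (Finset.mem_univ _) h
  have hsum : ∑ a, c a * eq (f a) = 0 := by
    rw [← h3']
    calc ∑ a, c a * eq (f a) = ∑ a, ∑ j, c a * (f a j : ℝ) * e j := by
          refine Finset.sum_congr rfl fun a _ => ?_
          rw [heq, Finset.mul_sum]
          exact Finset.sum_congr rfl fun j _ => by ring
      _ = ∑ j, ∑ a, c a * (f a j : ℝ) * e j := Finset.sum_comm
      _ = ∑ j, p j * e j := by
          refine Finset.sum_congr rfl fun j _ => ?_
          rw [← Finset.sum_mul, ← hpc j]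
  have hsum2 : ∑ a, eq (f a) ^ 2 / (B (f a) (f a) : ℝ) = 0 := by
    have g1 : β * ∑ a, eq (f a) ^ 2 / (B (f a) (f a) : ℝ) = 0 := by
      rw [← hsum, Finset.mul_sum]
      refine Finset.sum_congr rfl fun a _ => ?_
      by_cases h : (B (f a) (f a) : ℝ) = 0
      · have g2 := hbf a
        rw [h, mul_zero] at g2
        rw [(mul_eq_zero.1 g2).resolve_left hβ]
        simp
      · rw [mul_div_assoc', div_eq_iff h, sq, ← mul_assoc, hbf a]
        ring
    exact (mul_eq_zero.1 g1).resolve_left hβ
  obtain ⟨tt, htt⟩ : ∃ tt : Fin n → (Fin n → ℚ) → ℚ, ∀ i z, tt i z = ∑ j, ∑ k, z j * z k * (t i j k : ℚ) :=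
    ⟨_, fun _ _ => rfl⟩
  have htp : ∀ z, ∑ i, p i * (tt i z : ℝ) = β * eq z ^ 2 := by
    intro z
    calc ∑ i, p i * (tt i z : ℝ) = ∑ i, ∑ j, ∑ k, (z j : ℝ) * z k * (p i * (t i j k : ℝ)) := by
          refine Finset.sum_congr rfl fun i _ => ?_
          rw [htt]
          push_cast
          rw [Finset.mul_sum]
          refine Finset.sum_congr rfl fun j _ => ?_
          rw [Finset.mul_sum]
          refine Finset.sum_congr rfl fun k _ => ?_
          ring
      _ = ∑ j, ∑ k, ∑ i, (z j : ℝ) * z k * (p i * (t i j k : ℝ)) := by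
          rw [Finset.sum_comm]
          exact Finset.sum_congr rfl fun j _ => Finset.sum_comm
      _ = ∑ j, ∑ k, (z j : ℝ) * z k * (β * (e j * e k)) := by
          refine Finset.sum_congr rfl fun j _ => Finset.sum_congr rfl fun k _ => ?_
          rw [← Finset.mul_sum, h2']
      _ = β * eq z ^ 2 := by
          rw [heq, sq, Finset.sum_mul_sum, Finset.mul_sum]
          refine Finset.sum_congr rfl fun j _ => ?_
          rw [Finset.mul_sum]
          refine Finset.sum_congr rfl fun k _ => ?_
          ring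
  have hzt : ∀ z, ∑ i, z0 i * tt i z = B z z := by
    intro z
    calc ∑ i, z0 i * tt i z = ∑ i, ∑ j, ∑ k, z j * z k * (z0 i * (t i j k : ℚ)) := by
          refine Finset.sum_congr rfl fun i _ => ?_
          rw [htt]
          rw [Finset.mul_sum]
          refine Finset.sum_congr rfl fun j _ => ?_
          rw [Finset.mul_sum]
          refine Finset.sum_congr rfl fun k _ => ?_
          ring
      _ = ∑ j, ∑ k, ∑ i, z j * z k * (z0 i * (t i j k : ℚ)) := by
          rw [Finset.sum_comm]
          exact Finset.sum_congr rfl fun j _ => Finset.sum_comm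
      _ = B z z := by
          rw [hB]
          refine Finset.sum_congr rfl fun j _ => Finset.sum_congr rfl fun k _ => ?_
          rw [← Finset.mul_sum, s3]
  have hv : (fun i => ∑ a, tt i (f a) / B (f a) (f a)) = 0 := by
    refine lin_q hlin _ ?_
    calc ∑ i, p i * ((∑ a, tt i (f a) / B (f a) (f a) : ℚ) : ℝ) = ∑ a, (∑ i, p i * (tt i (f a) : ℝ)) / (B (f a) (f a) : ℝ) := by
          simp only [Finset.sum_div]
          rw [Finset.sum_comm]
          refine Finset.sum_congr rfl fun i _ => ?_
          push_cast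
          rw [Finset.mul_sum]
          refine Finset.sum_congr rfl fun a _ => ?_
          ring
      _ = β * ∑ a, eq (f a) ^ 2 / (B (f a) (f a) : ℝ) := by
          rw [Finset.mul_sum]
          refine Finset.sum_congr rfl fun a _ => ?_
          rw [htp]
          ring
      _ = 0 := by rw [hsum2, mul_zero]
  have hd : ∑ a, B (f a) (f a) / B (f a) (f a) = 0 := by
    calc ∑ a, B (f a) (f a) / B (f a) (f a) = ∑ i, z0 i * ∑ a, tt i (f a) / B (f a) (f a) := by
          simp only [Finset.mul_sum]
          rw [Finset.sum_comm]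
          refine Finset.sum_congr rfl fun a _ => ?_
          nth_rewrite 1 [← hzt (f a)]
          rw [Finset.sum_div]
          refine Finset.sum_congr rfl fun i _ => ?_
          ring
      _ = 0 := by
          refine Finset.sum_eq_zero fun i _ => ?_
          have g1 := congrFun hv i
          simp only [Pi.zero_apply] at g1
          rw [g1, mul_zero]
  have hd0 : ∀ a, B (f a) (f a) = 0 := by
    have g1 : ∀ a ∈ (Finset.univ : Finset (Fin (Module.finrank ℚ (Fin n → ℚ)))), 0 ≤ B (f a) (f a) / B (f a) (f a) := by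
      intro a _
      by_cases h : B (f a) (f a) = 0
      · rw [h, div_zero]
      · rw [div_self h]
        exact zero_le_one
    intro a
    have g2 := (Finset.sum_eq_zero_iff_of_nonneg g1).1 hd a (Finset.mem_univ _)
    by_contra h
    rw [div_self h] at g2
    exact one_ne_zero g2
  have he0 : eq = 0 := by
    refine f.ext fun a => ?_
    have g1 := hbf a
    rw [hd0, Rat.cast_zero, mul_zero] at g1
    rw [(mul_eq_zero.1 g1).resolve_left hβ, LinearMap.zero_apply]
  rw [he0, LinearMap.zero_apply] at hz0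
  exact zero_ne_one hz0

end Pool.Agent.H24.RL
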