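import Pool.Agent.H24.RL.Alg
import Pool.Agent.H24.ZL.Num

/-!
# [H24 RL Exu] THEOREM R (MP_e49dc9_ag), Part 2 (D): the class `u`

`N(w) = θ(w)² / β - T(p,w,w) ≥ 0`.  It is not identically `0` (`alg0`); `w = ρ w0` with `N(w0) > 0`, `θ(w0) ≤ 0`; `x` large, the intermediate value
theorem for `sqrt (β (ρ² N(w0) - L)) - ρ θ(w0) = x β`.
-/

set_option autoImplicit false

namespace Pool.Agent.H24.RL

open Pool.Agent.H54.RV Pool.Agent.H83.TU Pool.Agent.H83.TK Pool.Agent.H24.TK Pool.Agent.H41.TK Pool.Agent.H24.VP Pool.Agent.H24.ZL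

/-- the intermediate value -/
theorem ivt {β N₀ θ₀ L : ℝ} (hβ : 0 < β) (hN : 0 < N₀) (hθ : θ₀ ≤ 0) (hL : 0 < L) :
    ∃ (x : ℕ) (ρ : ℝ), 1 ≤ x ∧ 2 * β ≤ x * β + ρ * θ₀ ∧ (x * β + ρ * θ₀) ^ 2 = β * (ρ ^ 2 * N₀ - L) := by
  obtain ⟨g, hg⟩ : ∃ g : ℝ → ℝ, g = fun ρ => Real.sqrt (β * (ρ ^ 2 * N₀ - L)) - ρ * θ₀ := ⟨_, rfl⟩
  have hgc : Continuous g := by
    rw [hg]
    fun_prop
  obtain ⟨ρ₀, hρ₀⟩ : ∃ ρ₀, ρ₀ = Real.sqrt ((L + 4 * β) / N₀) := ⟨_, rfl⟩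
  have h0 : ρ₀ ^ 2 * N₀ = L + 4 * β := by
    rw [hρ₀, Real.sq_sqrt (by positivity), div_mul_cancel₀ _ hN.ne']
  have hρ₀0 : 0 ≤ ρ₀ := by rw [hρ₀]; exact Real.sqrt_nonneg _
  obtain ⟨x₀, hx₀⟩ := exists_nat_ge (g ρ₀ / β)
  obtain ⟨x, hx⟩ : ∃ x : ℕ, x = max 1 x₀ := ⟨_, rfl⟩
  have hx1 : 1 ≤ x := by rw [hx]; exact le_max_left _ _
  have hx2 : g ρ₀ ≤ x * β := by
    have h1 : (x₀ : ℝ) ≤ x := by
      rw [hx]
      exact_mod_cast le_max_right 1 x₀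
    rw [← div_le_iff₀ hβ]
    exact hx₀.trans h1
  obtain ⟨ρ₁, hρ₁⟩ : ∃ ρ₁, ρ₁ = Real.sqrt ((L + 4 * β + x ^ 2 * β) / N₀) := ⟨_, rfl⟩
  have h1 : ρ₁ ^ 2 * N₀ = L + 4 * β + x ^ 2 * β := by
    rw [hρ₁, Real.sq_sqrt (by positivity), div_mul_cancel₀ _ hN.ne']
  have hρ₁0 : 0 ≤ ρ₁ := by rw [hρ₁]; exact Real.sqrt_nonneg _
  have h01 : ρ₀ ≤ ρ₁ := by
    rw [hρ₀, hρ₁]
    refine Real.sqrt_le_sqrt (div_le_div_of_nonneg_right ?_ hN.le)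
    have : 0 ≤ (x : ℝ) ^ 2 * β := by positivity
    linarith
  have hx3 : x * β ≤ g ρ₁ := by
    rw [hg]
    simp only
    have h2 : (x : ℝ) * β ≤ Real.sqrt (β * (ρ₁ ^ 2 * N₀ - L)) := by
      refine Real.le_sqrt_of_sq_le ?_
      rw [h1]
      have : 0 < β * (4 * β) := by positivity
      nlinarith
    have h3 : ρ₁ * θ₀ ≤ 0 := mul_nonpos_of_nonneg_of_nonpos hρ₁0 hθ
    linarith
  obtain ⟨ρ, ⟨hρ1, hρ2⟩, hρ3⟩ := intermediate_value_Icc h01 hgc.continuousOn ⟨hx2, hx3⟩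
  rw [hg] at hρ3
  simp only at hρ3
  have h2 : 4 * β ≤ ρ ^ 2 * N₀ - L := by
    have h3 : ρ₀ ^ 2 ≤ ρ ^ 2 := pow_le_pow_left₀ hρ₀0 hρ1 2
    have h4 := mul_le_mul_of_nonneg_right h3 hN.le
    linarith
  have h5 : x * β + ρ * θ₀ = Real.sqrt (β * (ρ ^ 2 * N₀ - L)) := by linarith
  refine ⟨x, ρ, hx1, ?_, ?_⟩
  · rw [h5]
    refine Real.le_sqrt_of_sq_le ?_
    have := mul_le_mul_of_nonneg_left h2 hβ.le
    nlinarith
  · rw [h5, Real.sq_sqrt]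
    have : 0 ≤ ρ ^ 2 * N₀ - L := by linarith
    positivity

variable {k K : Type} [Field k] [Field K] [Algebra k K] {X : Mod k K}
  {T : Cart X → Cart X → Cart X → ℝ} {H : Cart X} {r : ℕ} {G : Fin r → Cart X} {p : Fin r → ℝ}

theorem t1_symm (ht : Tri T) (U V : Cart X) : t1 T G p U V = t1 T G p V U := by
  unfold t1
  exact Finset.sum_congr rfl fun i _ => by rw [ht.s23]

/-- `N` is not identically `0` -/
theorem ex_w (ht : Tri T) (hi : ∀ A B C, ∃ z : ℤ, T A B C = z)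
    (hlin : ∀ z : Fin r → ℤ, ∑ i, p i * z i = 0 → z = 0) (hβ : 0 < t1 T G p H H) (hpp : bf T H G p p = 0)
    (hN : ∀ w : Fin r → ℝ, t1 T G p H H * ∑ i, ∑ j, w i * w j * t1 T G p (G i) (G j) ≤ (∑ i, w i * t1 T G p (G i) H) ^ 2)
    (hθ : ∃ i, t1 T G p (G i) H ≠ 0) :
    ∃ w : Fin r → ℝ, t1 T G p H H * ∑ i, ∑ j, w i * w j * t1 T G p (G i) (G j) < (∑ i, w i * t1 T G p (G i) H) ^ 2 := by
  classical
  by_contra hcon
  push Not at hcon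
  obtain ⟨β, hβd⟩ : ∃ β, β = t1 T G p H H := ⟨_, rfl⟩
  rw [← hβd] at hβ hN hcon
  obtain ⟨Q, hQ⟩ : ∃ Q : LinearMap.BilinForm ℝ (Fin r → ℝ), ∀ x y, Q x y = ∑ i, ∑ j, x i * y j * t1 T G p (G i) (G j) := by
    refine ⟨Matrix.toBilin' (Matrix.of fun i j => t1 T G p (G i) (G j)), fun x y => ?_⟩
    rw [Matrix.toBilin'_apply]
    refine Finset.sum_congr rfl fun i _ => Finset.sum_congr rfl fun j _ => ?_
    rw [Matrix.of_apply]
    ring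
  obtain ⟨Θ, hΘ⟩ : ∃ Θ : (Fin r → ℝ) →ₗ[ℝ] ℝ, ∀ w, Θ w = ∑ i, w i * t1 T G p (G i) H := by
    refine ⟨∑ i, t1 T G p (G i) H • LinearMap.proj i, fun w => ?_⟩
    simp only [LinearMap.sum_apply, LinearMap.smul_apply, LinearMap.proj_apply, smul_eq_mul]
    exact Finset.sum_congr rfl fun i _ => mul_comm _ _
  have hQs : ∀ x y, Q x y = Q y x := by
    intro x y
    rw [hQ, hQ, Finset.sum_comm]
    refine Finset.sum_congr rfl fun i _ => Finset.sum_congr rfl fun j _ => ?_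
    rw [t1_symm ht]
    ring
  have h1 : ∀ w, β * Q w w = Θ w ^ 2 := by
    intro w
    rw [hQ, hΘ]
    exact le_antisymm (hN w) (hcon w)
  have h2 : ∀ v w, β * Q v w = Θ v * Θ w := by
    intro v w
    have e1 := h1 (v + w)
    simp only [map_add, LinearMap.add_apply] at e1
    rw [hQs w v] at e1
    have e2 := h1 v
    have e3 := h1 w
    nlinarith
  have hs : ∀ (i : Fin r) (f : Fin r → ℝ), ∑ i', (Pi.single i (1 : ℝ) : Fin r → ℝ) i' * f i' = f i := by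
    intro i f
    rw [Finset.sum_eq_single i]
    · simp
    · intro i' _ hi'
      rw [Pi.single_eq_of_ne hi', zero_mul]
    · intro h
      exact absurd (Finset.mem_univ _) h
  have h3 : ∀ i j, β * t1 T G p (G i) (G j) = t1 T G p (G i) H * t1 T G p (G j) H := by
    intro i j
    have e1 := h2 (Pi.single i 1) (Pi.single j 1)
    rw [hΘ, hΘ, hs, hs, hQ] at e1
    rw [← e1]
    congr 1
    have e2 : ∀ i', ∑ j', (Pi.single i (1 : ℝ) : Fin r → ℝ) i' * (Pi.single j (1 : ℝ) : Fin r → ℝ) j' * t1 T G p (G i') (G j') =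
        (Pi.single i (1 : ℝ) : Fin r → ℝ) i' * t1 T G p (G i') (G j) := by
      intro i'
      simp only [mul_assoc]
      rw [← Finset.mul_sum, hs]
    rw [Finset.sum_congr rfl fun i' _ => e2 i', hs]
  choose t' ht' using fun i j k => hi (G i) (G j) (G k)
  choose b' hb' using fun i j => hi (G i) (G j) H
  obtain ⟨i, hi'⟩ := hθ
  refine hi' (alg0 (t := t') (b := b') (θ := fun i => t1 T G p (G i) H) hlin ?_ ?_ ?_ hβ.ne' ?_ ?_ ?_ i)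
  · intro i j k
    have := ht.s12 (G i) (G j) (G k)
    rw [ht', ht'] at this
    exact_mod_cast this
  · intro i j k
    have := ht.s23 (G i) (G j) (G k)
    rw [ht', ht'] at this
    exact_mod_cast this
  · intro i j
    have := ht.s12 (G i) (G j) H
    rw [hb', hb'] at this
    exact_mod_cast this
  · intro j
    unfold t1
    exact Finset.sum_congr rfl fun i _ => by rw [hb']
  · intro j k
    rw [← h3]
    congr 1
    unfold t1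
    exact Finset.sum_congr rfl fun i _ => by rw [ht']
  · rw [← hpp]
    unfold bf t1
    refine Finset.sum_congr rfl fun i _ => ?_
    rw [Finset.mul_sum]
    refine Finset.sum_congr rfl fun j _ => ?_
    rw [ht.s12 (G i) (G j)]
    ring

theorem ex_u (ht : Tri T) (hi : ∀ A B C, ∃ z : ℤ, T A B C = z)
    (hlin : ∀ z : Fin r → ℤ, ∑ i, p i * z i = 0 → z = 0) (hβ : 0 < t1 T G p H H) (hpp : bf T H G p p = 0)
    (hN : ∀ w : Fin r → ℝ, t1 T G p H H * ∑ i, ∑ j, w i * w j * t1 T G p (G i) (G j) ≤ (∑ i, w i * t1 T G p (G i) H) ^ 2)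
    (hθ : ∃ i, t1 T G p (G i) H ≠ 0) {L : ℝ} (hL : 0 < L) :
    ∃ (x : ℕ) (w : Fin r → ℝ), 1 ≤ x ∧ 2 * t1 T G p H H ≤ x * t1 T G p H H + ∑ i, w i * t1 T G p (G i) H ∧
      x ^ 2 * t1 T G p H H + 2 * x * ∑ i, w i * t1 T G p (G i) H + ∑ i, ∑ j, w i * w j * t1 T G p (G i) (G j) = -L := by
  obtain ⟨w', hw'⟩ := ex_w ht hi hlin hβ hpp hN hθ
  obtain ⟨β, hβd⟩ : ∃ β, β = t1 T G p H H := ⟨_, rfl⟩
  rw [← hβd] at hβ hw' ⊢
  obtain ⟨w₀, h0, h1⟩ : ∃ w₀ : Fin r → ℝ, β * ∑ i, ∑ j, w₀ i * w₀ j * t1 T G p (G i) (G j) <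
      (∑ i, w₀ i * t1 T G p (G i) H) ^ 2 ∧ ∑ i, w₀ i * t1 T G p (G i) H ≤ 0 := by
    rcases le_total (∑ i, w' i * t1 T G p (G i) H) 0 with h | h
    · exact ⟨w', hw', h⟩
    · refine ⟨fun i => -w' i, ?_, ?_⟩
      · simp only [neg_mul, mul_neg, neg_neg, Finset.sum_neg_distrib, neg_sq]
        exact hw'
      · simp only [neg_mul, Finset.sum_neg_distrib]
        linarith
  obtain ⟨θ₀, hθ₀⟩ : ∃ θ₀, θ₀ = ∑ i, w₀ i * t1 T G p (G i) H := ⟨_, rfl⟩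
  obtain ⟨q₀, hq₀⟩ : ∃ q₀, q₀ = ∑ i, ∑ j, w₀ i * w₀ j * t1 T G p (G i) (G j) := ⟨_, rfl⟩
  rw [← hθ₀, ← hq₀] at h0
  rw [← hθ₀] at h1
  obtain ⟨x, ρ, hx, h2, h3⟩ := ivt (N₀ := θ₀ ^ 2 / β - q₀) hβ (by
    rw [sub_pos, lt_div_iff₀ hβ]
    linarith) h1 hL
  have e1 : ∑ i, ρ * w₀ i * t1 T G p (G i) H = ρ * θ₀ := by
    rw [hθ₀, Finset.mul_sum]
    exact Finset.sum_congr rfl fun i _ => by ring
  have e2 : ∑ i, ∑ j, ρ * w₀ i * (ρ * w₀ j) * t1 T G p (G i) (G j) = ρ ^ 2 * q₀ := by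
    rw [hq₀, Finset.mul_sum]
    refine Finset.sum_congr rfl fun i _ => ?_
    rw [Finset.mul_sum]
    exact Finset.sum_congr rfl fun j _ => by ring
  refine ⟨x, fun i => ρ * w₀ i, hx, ?_, ?_⟩
  · rw [e1]
    exact h2
  · rw [e1, e2]
    have h4 : β * (x ^ 2 * β + 2 * x * (ρ * θ₀) + ρ ^ 2 * q₀) = β * -L := by
      have h5 : β * (ρ ^ 2 * (θ₀ ^ 2 / β - q₀) - L) = ρ ^ 2 * θ₀ ^ 2 - β * ρ ^ 2 * q₀ - β * L := by
        field_simp
      rw [h5] at h3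
      linarith
    exact mul_left_cancel₀ hβ.ne' h4

end Pool.Agent.H24.RL
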