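import Pool.Agent.H24.RL.Con2

/-!
# [H24 RL Low2] THEOREM R (MP_e49dc9_ag), Part 2 (A): the lower bound for the classes `H ^ x * W`, `W` near `y p`, `p . p = 0`

`x ≥ 1` is fixed, `W = ∏ G_i ^ n_i`, `|n_i - y p_i| ≤ R₀`, `y → ∞`, `t = T(p,B,H) ≥ t₀ > 3 β / 2`.
-/

set_option autoImplicit false

namespace Pool.Agent.H24.RL

open Pool.Agent.H54.RV Pool.Agent.H83.TU Pool.Agent.H83.TK Pool.Agent.H24.TK Pool.Agent.H41.TK Pool.Agent.H24.VP Pool.Agent.H24.ZL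

variable {k K : Type} [Field k] [Field K] [Algebra k K] {X : Mod k K}
  {T : Cart X → Cart X → Cart X → ℝ} {l : Cart X → ℝ} {c : ℝ} {H : Cart X} {k' L : Type} [Field k'] [Field L]
  [Algebra k' L] {S : Mod k' L} {ψ : Cart X →* Cart S} {r : ℕ} {G : Fin r → Cart X} {p : Fin r → ℝ}

theorem b1 (ht : Tri T) (x : ℕ) (n : Fin r → ℤ) (y : ℝ) (U V : Cart X) :
    T (H ^ x * ∏ i, G i ^ n i) U V =
      x * T H U V + y * t1 T G p U V + ∑ i, ((n i : ℝ) - y * p i) * T (G i) U V := by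
  rw [ht.add, ht.pow, near1 ht n y]
  ring

theorem b2 (ht : Tri T) (hpp : bf T H G p p = 0) (x : ℕ) (n : Fin r → ℤ) (y : ℝ) :
    T (H ^ x * ∏ i, G i ^ n i) (H ^ x * ∏ i, G i ^ n i) H =
      2 * y * (x * t1 T G p H H + ∑ i, ((n i : ℝ) - y * p i) * t1 T G p (G i) H) +
      (x ^ 2 * T H H H + 2 * x * ∑ i, ((n i : ℝ) - y * p i) * T (G i) H H +
        ∑ i, ((n i : ℝ) - y * p i) * ∑ j, ((n j : ℝ) - y * p j) * T (G i) (G j) H) := by
  obtain ⟨W, hW⟩ : ∃ W, W = ∏ i, G i ^ n i := ⟨_, rfl⟩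
  have h1 := near1 (p := p) (G := G) ht n y H H
  have h2 := near2 (p := p) (G := G) (H := H) ht n y
  rw [hpp, mul_zero, zero_add] at h2
  rw [← hW] at h1 h2 ⊢
  rw [ht.add, ht.add2, ht.add2, ht.pow, ht.pow, ht.pow2, ht.pow2, ht.s12 H W H, h1, h2]
  ring

/-- the bounded part -/
theorem b3 {R₀ : ℝ} (hR : 0 ≤ R₀) (T : Cart X → Cart X → Cart X → ℝ) (H : Cart X) (G : Fin r → Cart X) (x : ℕ) :
    ∃ C : ℝ, 0 ≤ C ∧ ∀ w : Fin r → ℝ, (∀ i, |w i| ≤ R₀) →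
      |x ^ 2 * T H H H + 2 * x * ∑ i, w i * T (G i) H H + ∑ i, w i * ∑ j, w j * T (G i) (G j) H| ≤ C := by
  refine ⟨|(x : ℝ) ^ 2 * T H H H| + 2 * x * (R₀ * ∑ i, |T (G i) H H|) + R₀ * ∑ i, (R₀ * ∑ j, |T (G i) (G j) H|),
    by positivity, fun w hw => ?_⟩
  have h1 := sum_bd w (fun i => T (G i) H H) hw
  have h2 : |∑ i, w i * ∑ j, w j * T (G i) (G j) H| ≤ R₀ * ∑ i, (R₀ * ∑ j, |T (G i) (G j) H|) := by
    refine (sum_bd _ _ hw).trans ?_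
    refine mul_le_mul_of_nonneg_left (Finset.sum_le_sum fun i _ => sum_bd _ _ hw) hR
  refine (abs_add_le _ _).trans (add_le_add ((abs_add_le _ _).trans (add_le_add le_rfl ?_)) h2)
  rw [abs_mul, abs_of_nonneg (show (0 : ℝ) ≤ 2 * x by positivity)]
  exact mul_le_mul_of_nonneg_left h1 (by positivity)

theorem con_2 (hr : RR T l c) (hS : Sf H S ψ) (hi : ∀ A B C, ∃ z : ℤ, T A B C = z)
    (hlin : ∀ z : Fin r → ℤ, ∑ i, p i * z i = 0 → z = 0) (hβ : 0 < t1 T G p H H) (hpp : bf T H G p p = 0)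
    {K₁ : ℝ} (hK₁ : 0 ≤ K₁) {R₀ : ℝ} (hR : 0 ≤ R₀) {x : ℕ} (hx : 1 ≤ x) {t₀ : ℝ} (ht₀ : 0 < t₀) :
    ∃ y₀ : ℝ, ∀ (n : Fin r → ℤ) (y : ℝ), y₀ ≤ y → (∀ i, |(n i : ℝ) - y * p i| ≤ R₀) →
      t₀ ≤ x * t1 T G p H H + ∑ i, ((n i : ℝ) - y * p i) * t1 T G p (G i) H →
      Con T H (Qc T H G p K₁) (H ^ x * ∏ i, G i ^ n i) := by
  classical
  have ht := hr.tri
  have hx0 : (1 : ℝ) ≤ x := by exact_mod_cast hx
  obtain ⟨C, hC0, hC⟩ := b3 hR T H G x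
  obtain ⟨c₁, hc₁⟩ : ∃ c₁, c₁ = (C + 1) / t₀ := ⟨_, rfl⟩
  have hc₁0 : 0 ≤ c₁ := by rw [hc₁]; positivity
  have hc₁t : c₁ * t₀ = C + 1 := by rw [hc₁, div_mul_cancel₀ _ ht₀.ne']
  obtain ⟨K₀, hK₀⟩ : ∃ K₀, K₀ = r * R₀ * K₁ := ⟨_, rfl⟩
  have hK : 0 ≤ K₀ := by rw [hK₀]; positivity
  obtain ⟨h₁, hh₁⟩ : ∃ h₁, h₁ = (x * T H H H + R₀ * ∑ i, |T (G i) H H| + c₁ * t1 T G p H H) / 2 := ⟨_, rfl⟩
  obtain ⟨δ, hδ, hfin⟩ := fin_pos hlin (K₁ * h₁)
  obtain ⟨y₁, hy₁⟩ := lin_ev (show 0 < 2 * t₀ by positivity) C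
  obtain ⟨y₂, hy₂⟩ := lin_ev hδ (K₀ * h₁)
  refine ⟨max (c₁ + 1) (max y₁ y₂), fun n y hy hn htn => ?_⟩
  have hyc : c₁ + 1 ≤ y := (le_max_left _ _).trans hy
  have hy1 := hy₁ y ((le_max_left _ _).trans ((le_max_right _ _).trans hy))
  have hy2 := hy₂ y ((le_max_right _ _).trans ((le_max_right _ _).trans hy))
  have hyp : 0 < y := by linarith
  obtain ⟨t, htd⟩ : ∃ t, t = x * t1 T G p H H + ∑ i, ((n i : ℝ) - y * p i) * t1 T G p (G i) H := ⟨_, rfl⟩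
  have hCn := hC (fun i => (n i : ℝ) - y * p i) hn
  obtain ⟨s, hsd⟩ : ∃ s, s = x ^ 2 * T H H H + 2 * x * ∑ i, ((n i : ℝ) - y * p i) * T (G i) H H +
        ∑ i, ((n i : ℝ) - y * p i) * ∑ j, ((n j : ℝ) - y * p j) * T (G i) (G j) H := ⟨_, rfl⟩
  rw [← hsd, abs_le] at hCn
  obtain ⟨W, hW⟩ : ∃ W, W = H ^ x * ∏ i, G i ^ n i := ⟨_, rfl⟩
  have hWW : 0 < T W W H := by
    rw [hW, b2 ht hpp, ← hsd, ← htd]
    rw [← htd] at htn
    have h1 : y * t₀ ≤ y * t := mul_le_mul_of_nonneg_left htn hyp.le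
    linarith [hCn.1]
  have key : ∀ E, Qc T H G p K₁ E → T W E H ≤ 0 → T W E H ≤ T E E H → False := by
    rintro E ⟨hB, hE0, hE1⟩ h1 h2
    have h3 := b1 (G := G) (p := p) (H := H) ht x n y E H
    rw [← hW, ht.s12 H E H] at h3
    have h4 : |∑ i, ((n i : ℝ) - y * p i) * T (G i) E H| ≤ K₀ * T E H H := by
      refine (sum_bd _ _ hn).trans ?_
      have h5 : ∑ i, |T (G i) E H| ≤ ∑ _i : Fin r, K₁ * T E H H := Finset.sum_le_sum fun i _ => hE1 i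
      rw [Finset.sum_const, Finset.card_univ, Fintype.card_fin, nsmul_eq_mul] at h5
      calc R₀ * ∑ i, |T (G i) E H| ≤ R₀ * (r * (K₁ * T E H H)) := mul_le_mul_of_nonneg_left h5 hR
        _ = K₀ * T E H H := by rw [hK₀]; ring
    rw [abs_le] at h4
    have hxe : y * t1 T G p E H ≤ K₀ * T E H H := by
      have : 0 ≤ (x : ℝ) * T E H H := by positivity
      linarith [h4.1]
    have h5 := lc_u hr hS hi hβ hpp (E := E) x (fun i => (n i : ℝ) - y * p i) c₁ (y := y)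
      (by rw [← htd]; rw [← htd] at htn; linarith)
      (by
        rw [← htd, ← hsd]
        rw [← htd] at htn
        have h6 : c₁ * t₀ ≤ c₁ * t := mul_le_mul_of_nonneg_left htn hc₁0
        linarith [hCn.1])
      (by linarith) hE0 (by rw [← h3]; exact h1) (by rw [← h3]; exact h2)
    have h6 := sum_bd _ (fun i => T (G i) H H) hn
    rw [abs_le] at h6
    have hB' : T E H H ≤ h₁ := by
      rw [hh₁]
      linarith [h6.2]
    choose z hz using fun i => hi (G i) E H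
    have hz0 : z = 0 := by
      by_contra hne
      have h6 := hfin z (fun i => by
        rw [← hz]
        exact (hE1 i).trans (mul_le_mul_of_nonneg_left hB' hK₁)) hne
      have h7 : ∑ i, p i * (z i : ℝ) = t1 T G p E H := by
        unfold t1
        refine Finset.sum_congr rfl fun i _ => ?_
        rw [hz]
      rw [h7, abs_of_nonneg hE0] at h6
      have h8 : δ * y ≤ K₀ * h₁ := by
        calc δ * y ≤ t1 T G p E H * y := mul_le_mul_of_nonneg_right h6 hyp.le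
          _ = y * t1 T G p E H := mul_comm _ _
          _ ≤ K₀ * T E H H := hxe
          _ ≤ K₀ * h₁ := mul_le_mul_of_nonneg_left hB' hK
      linarith
    have hT0 : ∀ i, T (G i) E H = 0 := fun i => by
      rw [hz, hz0]
      simp
    have hp0 : t1 T G p E H = 0 := by
      unfold t1
      simp only [hT0, mul_zero, Finset.sum_const_zero]
    have hW0 : T W E H = x * T E H H := by
      rw [h3, hp0]
      simp only [hT0, mul_zero, Finset.sum_const_zero, add_zero]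
    have : 0 < (x : ℝ) * T E H H := by positivity
    linarith
  intro Z R hZ hR' hsum
  rw [← hW] at hsum
  by_contra hcon
  push Not at hcon
  have h1 := hsum W
  have h2 := hsum Z
  have h3 := hsum R
  rw [ht.s12 Z W, ht.s12 R W] at h1
  rw [ht.s12 R Z] at h2
  have h4 := hdg_L ht hi (crv_num hr hS).1 (hdg hr hS) W Z hWW
  have h5 := hdg_L ht hi (crv_num hr hS).1 (hdg hr hS) W R hWW
  have h6 : T W W H * T W Z H ≤ T W Z H ^ 2 :=
    (mul_le_mul_of_nonneg_left (by linarith) hWW.le).trans h4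
  have h7 : T W W H * T W R H ≤ T W R H ^ 2 :=
    (mul_le_mul_of_nonneg_left (by linarith) hWW.le).trans h5
  rcases le_or_gt (T W Z H) 0 with h8 | h8
  · exact key Z hZ h8 (by linarith)
  · rcases le_or_gt (T W R H) 0 with h9 | h9
    · exact key R hR' h9 (by linarith)
    · have h10 : T W W H ≤ T W Z H := by
        rw [sq] at h6
        exact le_of_mul_le_mul_right h6 h8
      have h11 : T W W H ≤ T W R H := by
        rw [sq] at h7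
        exact le_of_mul_le_mul_right h7 h9
      linarith

theorem low_2 (hX : IsVar X) (hr : RR T l c) (hS : Sf H S ψ) (hi : ∀ A B C, ∃ z : ℤ, T A B C = z)
    (hlin : ∀ z : Fin r → ℤ, ∑ i, p i * z i = 0 → z = 0) (hnef : ∀ E, Cls S ψ E → 0 ≤ t1 T G p E H)
    (hβ : 0 < t1 T G p H H) (hpp : bf T H G p p = 0) {x : ℕ} (hx : 1 ≤ x) (R₀ : ℝ) {t₀ : ℝ}
    (ht₀ : 3 / 2 * t1 T G p H H < t₀) :
    ∃ C y₀ : ℝ, ∀ (n : Fin r → ℤ) (y : ℝ), y₀ ≤ y → (∀ i, |(n i : ℝ) - y * p i| ≤ R₀) →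
      t₀ ≤ x * t1 T G p H H + ∑ i, ((n i : ℝ) - y * p i) * t1 T G p (G i) H →
      chi T l c (H ^ x * ∏ i, G i ^ n i) - C ≤ h0 (H ^ x * ∏ i, G i ^ n i) 1 := by
  classical
  have ht := hr.tri
  obtain ⟨R, hRd⟩ : ∃ R, R = max R₀ 0 := ⟨_, rfl⟩
  have hR : 0 ≤ R := by rw [hRd]; exact le_max_right _ _
  obtain ⟨K₁, hK₁, hcc⟩ := cc_qc hX hr hS hβ hnef
  obtain ⟨y₁, hy₁⟩ := con_2 hr hS hi hlin hβ hpp hK₁ hR hx (show 0 < t₀ by linarith)
  obtain ⟨C, hC⟩ := low_uni hr hS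
  obtain ⟨C₂, hC₂0, hC₂⟩ := b3 hR T H G x
  obtain ⟨β, hβd⟩ : ∃ β, β = t1 T G p H H := ⟨_, rfl⟩
  obtain ⟨κ, hκd⟩ : ∃ κ, κ = T H H H := ⟨_, rfl⟩
  obtain ⟨C₃, hC₃⟩ : ∃ C₃, C₃ = x * |κ| + R * ∑ i, |T (G i) H H| := ⟨_, rfl⟩
  obtain ⟨y₂, hy₂⟩ := lin_ev (show 0 < t₀ - 3 / 2 * β by rw [hβd]; linarith) (C₂ / 2 + 3 / 2 * C₃ - (7 / 6 * κ + l H))
  obtain ⟨y₃, hy₃⟩ := lin_ev hβ (C₃ + 2 * κ)
  refine ⟨C, max 1 (max y₁ (max y₂ y₃)), fun n y hy hn htn => ?_⟩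
  have hy0 : 1 ≤ y := (le_max_left _ _).trans hy
  have hy1 : y₁ ≤ y := (le_max_left _ _).trans ((le_max_right _ _).trans hy)
  have hy2 := hy₂ y ((le_max_left _ _).trans ((le_max_right _ _).trans ((le_max_right _ _).trans hy)))
  have hy3 := hy₃ y ((le_max_right _ _).trans ((le_max_right _ _).trans ((le_max_right _ _).trans hy)))
  have hyp : 0 < y := by linarith
  have hn' : ∀ i, |(n i : ℝ) - y * p i| ≤ R := fun i => (hn i).trans (by rw [hRd]; exact le_max_left _ _)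
  have hcon := hy₁ n y hy1 hn' htn
  have h2 := b2 (G := G) ht hpp x n y
  have h2' := hC₂ (fun i => (n i : ℝ) - y * p i) hn'
  have h3 := b1 (G := G) (p := p) (H := H) ht x n y H H
  have h4 := sum_bd _ (fun i => T (G i) H H) hn'
  obtain ⟨t, htd⟩ : ∃ t, t = x * t1 T G p H H + ∑ i, ((n i : ℝ) - y * p i) * t1 T G p (G i) H := ⟨_, rfl⟩
  obtain ⟨s, hsd⟩ : ∃ s, s = x ^ 2 * T H H H + 2 * x * ∑ i, ((n i : ℝ) - y * p i) * T (G i) H H +
        ∑ i, ((n i : ℝ) - y * p i) * ∑ j, ((n j : ℝ) - y * p j) * T (G i) (G j) H := ⟨_, rfl⟩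
  obtain ⟨W, hW⟩ : ∃ W, W = H ^ x * ∏ i, G i ^ n i := ⟨_, rfl⟩
  rw [← hW] at h2 h3 hcon ⊢
  rw [← htd] at htn h2
  rw [← hsd] at h2 h2'
  rw [← hκd, ← hβd] at h3
  rw [← hβd] at hy3 ht₀
  rw [abs_le] at h2' h4
  have h5 : (x : ℝ) * κ ≤ x * |κ| := mul_le_mul_of_nonneg_left (le_abs_self _) (Nat.cast_nonneg _)
  have h6 : -((x : ℝ) * |κ|) ≤ x * κ := by
    have := mul_le_mul_of_nonneg_left (neg_abs_le κ) (Nat.cast_nonneg (α := ℝ) x)
    linarith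
  refine hC _ hcc W (W * H⁻¹) (by rw [mul_comm, inv_mul_cancel_right]) hcon ?_
  have e1 : T (W * H⁻¹) H H = T W H H - κ := by
    rw [ht.add, ht.inv, ← hκd]
    ring
  have hlt : T H H H < T (W * H⁻¹) H H := by
    rw [e1, ← hκd, h3]
    linarith [h4.1]
  have e2 : chS T l H (W * H⁻¹) = T W W H / 2 - 3 / 2 * T W H H + (7 / 6 * κ + l H) := by
    unfold chS
    rw [e1]
    simp only [ht.add, ht.add2, ht.inv, ht.inv2]
    rw [ht.s12 H W H, ← hκd]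
    ring
  have h7 := t4 hr hS _ hlt
  rw [e2, h2, h3] at h7
  have h8 : (0 : ℝ) < h0 (ψ (W * H⁻¹)) 1 := by
    refine lt_of_lt_of_le ?_ h7
    have h9 := mul_le_mul_of_nonneg_left htn hyp.le
    have h10 := h2'.1
    have h11 := h4.2
    nlinarith
  exact_mod_cast h8

end Pool.Agent.H24.RL
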