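import Pool.Agent.H24.RL.Low2
import Pool.Agent.H24.RL.Exu
import Pool.Agent.H24.RL.Kron

/-!
# [H24 RL Neg] THEOREM R (MP_e49dc9_ag), Part 2: an effective divisor `B = H ^ x * W`, `x ≥ 1`, `W ∈ Vp p`, with `T(p,B,B) < 0`

`p . p = 0`, `θ = T(p,.,H) ≠ 0` on the `G_i`, `l(p) > 0`.  (In `Vp p`: `p = ∑ p_i G_i`, `p_i` linearly independent over `ℚ`.)
Then a prime component `Q` of `B` has `T(p,B,Q) < 0`, so `T(p,Q,Q) < 0`, `loc_neg` (H20/RT/Loc) gives `T(p,W,Q) = 0`, so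
`T(p,B,Q) = x T(p,H,Q) ≥ 0`: a contradiction.
-/

set_option autoImplicit false

namespace Pool.Agent.H24.RL

open Pool.Agent.H54.RV Pool.Agent.H83.TU Pool.Agent.H83.TK Pool.Agent.H24.TK Pool.Agent.H41.TK Pool.Agent.H24.VP Pool.Agent.H24.ZL

variable {k K : Type} [Field k] [Field K] [Algebra k K] {X : Mod k K}
  {T : Cart X → Cart X → Cart X → ℝ} {l : Cart X → ℝ} {c : ℝ} {H : Cart X} {k' L : Type} [Field k'] [Field L]
  [Algebra k' L] {S : Mod k' L} {ψ : Cart X →* Cart S} {r : ℕ} {G : Fin r → Cart X} {p : Fin r → ℝ}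

/-- `T(B,B,U)` -/
theorem b2' (ht : Tri T) {U : Cart X} (hpp : bf T U G p p = 0) (x : ℕ) (n : Fin r → ℤ) (y : ℝ) :
    T (H ^ x * ∏ i, G i ^ n i) (H ^ x * ∏ i, G i ^ n i) U =
      2 * y * (x * t1 T G p H U + ∑ i, ((n i : ℝ) - y * p i) * t1 T G p (G i) U) +
      (x ^ 2 * T H H U + 2 * x * ∑ i, ((n i : ℝ) - y * p i) * T (G i) H U +
        ∑ i, ((n i : ℝ) - y * p i) * ∑ j, ((n j : ℝ) - y * p j) * T (G i) (G j) U) := by
  obtain ⟨W, hW⟩ : ∃ W, W = ∏ i, G i ^ n i := ⟨_, rfl⟩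
  have h1 := near1 (p := p) (G := G) ht n y H U
  have h2 := near2 (p := p) (G := G) (H := U) ht n y
  rw [hpp, mul_zero, zero_add] at h2
  rw [← hW] at h1 h2 ⊢
  rw [ht.add, ht.add2, ht.add2, ht.pow, ht.pow, ht.pow2, ht.pow2, ht.s12 H W U, h1, h2]
  ring

theorem bf_sum (ht : Tri T) (U : Cart X) : ∑ i, p i * t1 T G p (G i) U = bf T U G p p := by
  unfold bf t1
  refine Finset.sum_congr rfl fun i _ => ?_
  rw [Finset.mul_sum]
  refine Finset.sum_congr rfl fun j _ => ?_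
  rw [ht.s12 (G j) (G i)]
  ring

theorem t1_prod (ht : Tri T) (n : Fin r → ℤ) (U : Cart X) :
    t1 T G p (∏ i, G i ^ n i) U = ∑ i, (n i : ℝ) * t1 T G p (G i) U := by
  unfold t1
  simp only [Finset.mul_sum]
  rw [Finset.sum_comm]
  refine Finset.sum_congr rfl fun i _ => ?_
  rw [ht.s12, zprod ht, Finset.mul_sum]
  refine Finset.sum_congr rfl fun j _ => ?_
  rw [ht.s12 (G i) (G j)]
  ring

theorem t1_prodw (ht : Tri T) {U : Cart X} (hpp : bf T U G p p = 0) (n : Fin r → ℤ) (y : ℝ) :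
    t1 T G p (∏ i, G i ^ n i) U = ∑ i, ((n i : ℝ) - y * p i) * t1 T G p (G i) U := by
  rw [t1_prod ht]
  have h1 := bf_sum (G := G) (p := p) ht U
  have e : ∑ i, ((n i : ℝ) - y * p i) * t1 T G p (G i) U =
      ∑ i, (n i : ℝ) * t1 T G p (G i) U - y * ∑ i, p i * t1 T G p (G i) U := by
    rw [Finset.mul_sum, ← Finset.sum_sub_distrib]
    exact Finset.sum_congr rfl fun i _ => by ring
  rw [e, h1, hpp, mul_zero, sub_zero]

/-- `T(p,B,B)` -/
theorem t1_BB (ht : Tri T) (hpp : ∀ U, bf T U G p p = 0) (x : ℕ) (n : Fin r → ℤ) (y : ℝ) :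
    t1 T G p (H ^ x * ∏ i, G i ^ n i) (H ^ x * ∏ i, G i ^ n i) =
      x ^ 2 * t1 T G p H H + 2 * x * ∑ i, ((n i : ℝ) - y * p i) * t1 T G p (G i) H +
        ∑ i, ∑ j, ((n i : ℝ) - y * p i) * ((n j : ℝ) - y * p j) * t1 T G p (G i) (G j) := by
  obtain ⟨W, hW⟩ : ∃ W, W = ∏ i, G i ^ n i := ⟨_, rfl⟩
  have hp : ∀ U V, t1 T G p (H ^ x * U) V = x * t1 T G p H V + t1 T G p U V := by
    intro U V
    unfold t1
    rw [Finset.mul_sum, ← Finset.sum_add_distrib]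
    refine Finset.sum_congr rfl fun i _ => ?_
    rw [ht.add2, ht.pow2]
    ring
  have h1 : t1 T G p W H = ∑ i, ((n i : ℝ) - y * p i) * t1 T G p (G i) H := by
    rw [hW]
    exact t1_prodw ht (hpp H) n y
  have h2 : t1 T G p W W = ∑ i, ∑ j, ((n i : ℝ) - y * p i) * ((n j : ℝ) - y * p j) * t1 T G p (G i) (G j) := by
    rw [hW, t1_prodw ht (hpp _) n y]
    refine Finset.sum_congr rfl fun i _ => ?_
    rw [t1_symm ht, t1_prodw ht (hpp _) n y, Finset.mul_sum]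
    refine Finset.sum_congr rfl fun j _ => ?_
    rw [t1_symm ht (G j) (G i)]
    ring
  rw [← hW, hp, t1_symm ht H, hp, t1_symm ht W (H ^ x * W), hp, t1_symm ht H W, h1, h2]
  ring

theorem exists_neg (hX : IsVar X) (hr : RR T l c) (hS : Sf H S ψ) (hi : ∀ A B C, ∃ z : ℤ, T A B C = z)
    (hlin : ∀ z : Fin r → ℤ, ∑ i, p i * z i = 0 → z = 0) (hnef : ∀ E, Cls S ψ E → 0 ≤ t1 T G p E H)
    (hβ : 0 < t1 T G p H H) (hpp : ∀ U, bf T U G p p = 0)
    (hN : ∀ w : Fin r → ℝ, t1 T G p H H * ∑ i, ∑ j, w i * w j * t1 T G p (G i) (G j) ≤ (∑ i, w i * t1 T G p (G i) H) ^ 2)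
    (hθ : ∃ i, t1 T G p (G i) H ≠ 0) (hl : 0 < ∑ i, p i * l (G i)) :
    ∃ (x : ℕ) (n : Fin r → ℤ), 1 ≤ x ∧ 0 < h0 (H ^ x * ∏ i, G i ^ n i) 1 ∧
      t1 T G p (H ^ x * ∏ i, G i ^ n i) (H ^ x * ∏ i, G i ^ n i) < 0 := by
  classical
  have ht := hr.tri
  obtain ⟨lp, hlp⟩ : ∃ lp, lp = ∑ i, p i * l (G i) := ⟨_, rfl⟩
  rw [← hlp] at hl
  obtain ⟨x, w, hx, hx2, hτ⟩ := ex_u ht hi hlin hβ (hpp H) hN hθ hl
  obtain ⟨β, hβd⟩ : ∃ β, β = t1 T G p H H := ⟨_, rfl⟩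
  obtain ⟨Θ, hΘ⟩ : ∃ Θ : (Fin r → ℝ) → ℝ, Θ = fun v => ∑ i, v i * t1 T G p (G i) H := ⟨_, rfl⟩
  obtain ⟨τ, hτd⟩ : ∃ τ : (Fin r → ℝ) → ℝ, τ = fun v => x ^ 2 * t1 T G p H H + 2 * x * ∑ i, v i * t1 T G p (G i) H +
    ∑ i, ∑ j, v i * v j * t1 T G p (G i) (G j) := ⟨_, rfl⟩
  obtain ⟨F₃, hF₃⟩ : ∃ F₃ : Cart X → (Fin r → ℝ) → ℝ, F₃ = fun U v => x ^ 2 * T H H U + 2 * x * ∑ i, v i * T (G i) H U +
    ∑ i, v i * ∑ j, v j * T (G i) (G j) U := ⟨_, rfl⟩
  obtain ⟨F, hF⟩ : ∃ F : (Fin r → ℝ) → ℝ, F = fun v => (x * F₃ H v + ∑ i, v i * F₃ (G i) v) / 6 +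
    (x * l H + ∑ i, v i * l (G i)) + c := ⟨_, rfl⟩
  have hΘc : Continuous Θ := by rw [hΘ]; fun_prop
  have hτc : Continuous τ := by rw [hτd]; fun_prop
  have hF₃c : ∀ U, Continuous (F₃ U) := fun U => by rw [hF₃]; fun_prop
  have hFc : Continuous F := by
    rw [hF]
    fun_prop
  have hτw : τ w = -lp := by rw [hτd]; exact hτ
  -- the neighbourhood of `w`
  obtain ⟨ε₁, hε₁, h1⟩ : ∃ ε₁ : ℝ, 0 < ε₁ ∧ ∀ v, dist v w < ε₁ → dist (τ v) (τ w) < lp / 2 ∧ dist (Θ v) (Θ w) < β / 4 := by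
    obtain ⟨e₁, he₁, g1⟩ := Metric.continuous_iff.1 hτc w (lp / 2) (by positivity)
    obtain ⟨e₂, he₂, g2⟩ := Metric.continuous_iff.1 hΘc w (β / 4) (by rw [hβd]; positivity)
    exact ⟨min e₁ e₂, lt_min he₁ he₂, fun v hv => ⟨g1 v (hv.trans_le (min_le_left _ _)), g2 v (hv.trans_le (min_le_right _ _))⟩⟩
  obtain ⟨C, y₀, hlow⟩ := low_2 hX hr hS hi hlin hnef hβ (hpp H) hx (‖w‖ + 1) (t₀ := 7 / 4 * β) (by rw [hβd]; linarith)
  obtain ⟨C', hC'⟩ := (isCompact_closedBall (0 : Fin r → ℝ) (‖w‖ + 1)).exists_bound_of_continuousOn hFc.continuousOn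
  obtain ⟨M, hM⟩ : ∃ M, M = max y₀ (max 1 (4 * (C + C' + 1) / lp)) := ⟨_, rfl⟩
  obtain ⟨y, n, hy, hn⟩ := kron (p := p) (fun z hz => hlin z (by
    rw [← hz]
    exact Finset.sum_congr rfl fun i _ => mul_comm _ _)) w (ε := min (ε₁ / 2) 1) (by positivity) M
  have hy0 : y₀ ≤ y := (le_max_left _ _).trans (by rw [← hM]; exact hy)
  have hy1 : 1 ≤ y := (le_max_left 1 (4 * (C + C' + 1) / lp)).trans ((le_max_right _ _).trans (by rw [← hM]; exact hy))
  have hy2 : 4 * (C + C' + 1) / lp ≤ y :=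
    (le_max_right 1 (4 * (C + C' + 1) / lp)).trans ((le_max_right _ _).trans (by rw [← hM]; exact hy))
  obtain ⟨v, hv⟩ : ∃ v : Fin r → ℝ, v = fun i => (n i : ℝ) - y * p i := ⟨_, rfl⟩
  have hv' : ∀ i, (n i : ℝ) - y * p i = v i := fun i => by rw [hv]
  have hvw : ‖v - w‖ ≤ min (ε₁ / 2) 1 := by
    rw [pi_norm_le_iff_of_nonneg (by positivity)]
    intro i
    rw [Pi.sub_apply, Real.norm_eq_abs, ← hv']
    exact hn i
  have hd : dist v w < ε₁ := by
    rw [dist_eq_norm]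
    have := min_le_left (ε₁ / 2) 1
    linarith
  obtain ⟨h2, h3⟩ := h1 v hd
  rw [Real.dist_eq, abs_lt] at h2 h3
  have hv1 : ‖v‖ ≤ ‖w‖ + 1 := by
    have h4 : ‖v‖ ≤ ‖v - w‖ + ‖w‖ := by
      have := norm_add_le (v - w) w
      rwa [sub_add_cancel] at this
    have := min_le_right (ε₁ / 2) 1
    linarith
  have hvi : ∀ i, |(n i : ℝ) - y * p i| ≤ ‖w‖ + 1 := fun i => by
    rw [hv', ← Real.norm_eq_abs]
    exact (norm_le_pi_norm v i).trans hv1
  obtain ⟨B, hB⟩ : ∃ B, B = H ^ x * ∏ i, G i ^ n i := ⟨_, rfl⟩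
  have hΘw : 2 * β ≤ x * β + Θ w := by
    rw [hΘ, hβd]
    exact hx2
  have h4 := hlow n y hy0 hvi (by
    rw [← hβd]
    simp only [hv']
    have e : ∑ i, v i * t1 T G p (G i) H = Θ v := by rw [hΘ]
    rw [e]
    linarith [h3.1])
  have h5 := hC' v (by rwa [mem_closedBall_zero_iff])
  rw [Real.norm_eq_abs, abs_le] at h5
  have h6 : t1 T G p B B = τ v := by
    rw [hB, t1_BB ht hpp x n y, hτd]
    simp only [hv']
  -- the characteristic
  have h7 : ∀ U, T B B U = 2 * y * (x * t1 T G p H U + ∑ i, v i * t1 T G p (G i) U) + F₃ U v := by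
    intro U
    rw [hB, b2' ht (hpp U) x n y, hF₃]
    simp only [hv']
  have h8 : T B B B = 3 * y * τ v + (x * F₃ H v + ∑ i, v i * F₃ (G i) v) := by
    have e1 : T B B B = x * T B B H + y * t1 T G p B B + ∑ i, v i * T B B (G i) := by
      have g1 : T B B B = T B (H ^ x * ∏ i, G i ^ n i) B := by rw [← hB]
      rw [g1, ht.s12, b1 (p := p) ht x n y B B]
      simp only [hv']
      rw [ht.s12 H B B, ht.s23 B H B]
      congr 1
      refine Finset.sum_congr rfl fun i _ => ?_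
      rw [ht.s12 (G i) B B, ht.s23 B (G i) B]
    have e2 : ∑ i, v i * (2 * y * (x * t1 T G p H (G i) + ∑ j, v j * t1 T G p (G j) (G i)) + F₃ (G i) v) =
        2 * y * (x * Θ v + ∑ i, ∑ j, v i * v j * t1 T G p (G i) (G j)) + ∑ i, v i * F₃ (G i) v := by
      rw [hΘ]
      simp only [mul_add, Finset.sum_add_distrib, Finset.mul_sum]
      congr 1
      congr 1
      · refine Finset.sum_congr rfl fun i _ => ?_
        rw [t1_symm ht H (G i)]
        ring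
      · refine Finset.sum_congr rfl fun i _ => Finset.sum_congr rfl fun j _ => ?_
        rw [t1_symm ht (G j) (G i)]
        ring
    have e3 : τ v = x ^ 2 * t1 T G p H H + 2 * x * Θ v + ∑ i, ∑ j, v i * v j * t1 T G p (G i) (G j) := by
      rw [hτd, hΘ]
    have e4 : ∑ i, v i * t1 T G p (G i) H = Θ v := by rw [hΘ]
    have e5 : ∑ i, v i * T B B (G i) =
        2 * y * (x * Θ v + ∑ i, ∑ j, v i * v j * t1 T G p (G i) (G j)) + ∑ i, v i * F₃ (G i) v := by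
      rw [← e2]
      exact Finset.sum_congr rfl fun i _ => by rw [h7 (G i)]
    rw [e1, h6, h7 H, e5, e3, e4]
    ring
  have h9 : l B = y * lp + (x * l H + ∑ i, v i * l (G i)) := by
    have g0 : l 1 = 0 := by
      have := hr.ladd 1 1
      rw [mul_one] at this
      linarith
    have g1 : ∀ (U : Cart X) (m : ℕ), l (U ^ m) = m * l U := by
      intro U m
      induction m with
      | zero => rw [pow_zero, g0]; simp
      | succ m ih => rw [pow_succ, hr.ladd, ih]; push_cast; ring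
    have g2 : ∀ (U : Cart X) (m : ℤ), l (U ^ m) = m * l U := by
      intro U m
      have gi : l U⁻¹ = -l U := by
        have := hr.ladd U U⁻¹
        rw [mul_inv_cancel, g0] at this
        linarith
      rcases Int.eq_nat_or_neg m with ⟨m', rfl | rfl⟩
      · rw [zpow_natCast, g1]; push_cast; rfl
      · rw [zpow_neg, zpow_natCast, ← inv_pow, g1, gi]; push_cast; ring
    have g3 : l (∏ i, G i ^ n i) = ∑ i, (n i : ℝ) * l (G i) := by
      have g4 : ∀ s : Finset (Fin r), l (∏ i ∈ s, G i ^ n i) = ∑ i ∈ s, (n i : ℝ) * l (G i) := by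
        intro s
        induction s using Finset.induction_on with
        | empty => rw [Finset.prod_empty, Finset.sum_empty, g0]
        | insert a s ha ih => rw [Finset.prod_insert ha, Finset.sum_insert ha, hr.ladd, g2, ih]
      exact g4 _
    rw [hB, hr.ladd, g1, g3, hlp, Finset.mul_sum]
    have g5 : ∑ i, (n i : ℝ) * l (G i) = ∑ i, y * (p i * l (G i)) + ∑ i, v i * l (G i) := by
      rw [← Finset.sum_add_distrib]
      refine Finset.sum_congr rfl fun i _ => ?_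
      rw [← hv']
      ring
    rw [g5]
    ring
  have h10 : chi T l c B = y * (τ v / 2 + lp) + F v := by
    unfold Pool.Agent.H24.VP.chi
    rw [h8, h9, hF]
    ring
  rw [← hB, h10] at h4
  refine ⟨x, n, hx, ?_, ?_⟩
  · rw [← hB]
    have h11 : y * (lp / 4) ≤ y * (τ v / 2 + lp) := by
      refine mul_le_mul_of_nonneg_left ?_ (by linarith)
      linarith [h2.1]
    rw [div_le_iff₀ hl] at hy2
    have h12 : (0 : ℝ) < h0 B 1 := by
      have : y * (lp / 4) = y * lp / 4 := by ring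
      linarith [h5.1]
    exact_mod_cast h12
  · rw [← hB, h6]
    linarith [h2.2]

end Pool.Agent.H24.RL
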